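import Pool.Agent.T9h63.KT.Un

set_option autoImplicit false
set_option maxHeartbeats 1000000

/-!
The number of the roots which are products of a power of `q` and of a root of unity of `ℓ`-power order.
-/

namespace Pool.Agent.T9h63.KT

open Polynomial

lemma reverse_X_sub_one {F : Type*} [Field F] : (X - 1 : F[X]).reverse = 1 - X := by
  have h := reverse_add_C (X : F[X]) (-1 : F)
  have h2 : (X : F[X]).reverse = 1 := by
    have h3 := reverse_mul_X (1 : F[X])
    rw [one_mul] at h3
    rw [h3, ← C_1, reverse_C]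
  rw [h2, natDegree_X, pow_one, map_neg, C_1] at h
  rw [sub_eq_add_neg, h]
  ring

lemma reflect_pow {F : Type*} [Field F] (n : ℕ) :
    reflect n ((X - 1 : F[X]) ^ n) = (1 - X) ^ n := by
  have h1 : ((X - 1 : F[X]) ^ n).natDegree = n := by
    rw [natDegree_pow, show (X - 1 : F[X]) = X - C 1 by simp, natDegree_X_sub_C, mul_one]
  have h2 : ((X - 1 : F[X]) ^ n).reverse = (1 - X) ^ n := by
    clear h1
    induction n with
    | zero => rw [pow_zero, pow_zero, ← C_1, reverse_C]
    | succ n ih => rw [pow_succ, reverse_mul_of_domain, ih, reverse_X_sub_one, pow_succ]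
  rw [← h2, reverse, h1]

lemma mult_one_sub {F : Type*} [Field F] (n : ℕ) :
    rootMultiplicity 1 ((1 - X : F[X]) ^ n) = n := by
  have : (1 - X : F[X]) ^ n = C ((-1) ^ n) * (X - C 1) ^ n := by
    rw [map_pow, ← mul_pow]; congr 1; simp
  rw [this]
  have hne : (C ((-1 : F) ^ n) * (X - C 1) ^ n : F[X]) ≠ 0 := by
    apply mul_ne_zero
    · simp
    · exact pow_ne_zero _ (X_sub_C_ne_zero 1)
  rw [rootMultiplicity_mul hne, rootMultiplicity_C, zero_add, rootMultiplicity_X_sub_C_pow]

variable {l : ℕ} [hl : Fact l.Prime] {q : ℕ}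

/-- the reduction of the minimal polynomial -/
lemma min_red (hq : (q : ZMod l) = 1) {α : ℂ} {b j : ℕ}
    (hα : α ^ l ^ b = (q : ℂ) ^ (j * l ^ b)) :
    IsIntegral ℤ α ∧ (minpoly ℤ α).map (Int.castRingHom (ZMod l))
      = (X - 1) ^ (minpoly ℤ α).natDegree ∧
    ∀ β : ℂ, ((minpoly ℤ α).map (Int.castRingHom ℂ)).eval β = 0 →
      β ^ l ^ b = (q : ℂ) ^ (j * l ^ b) := by
  set L := l ^ b with hL
  have hLpos : 0 < L := pow_pos hl.out.pos b
  have hmono : (X ^ L - C ((q : ℤ) ^ (j * L)) : ℤ[X]).Monic := monic_X_pow_sub_C _ hLpos.ne'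
  have hroot : aeval α (X ^ L - C ((q : ℤ) ^ (j * L)) : ℤ[X]) = 0 := by
    simp [hα]
  have hint : IsIntegral ℤ α := ⟨_, hmono, hroot⟩
  have d2 : minpoly ℤ α ∣ (X ^ L - C ((q : ℤ) ^ (j * L)) : ℤ[X]) :=
    minpoly.isIntegrallyClosed_dvd hint hroot
  refine ⟨hint, ?_, ?_⟩
  · have hm := minpoly.monic hint
    have d3 : (minpoly ℤ α).map (Int.castRingHom (ZMod l)) ∣ (X - 1) ^ L := by
      have := Polynomial.map_dvd (Int.castRingHom (ZMod l)) d2
      have e : (X ^ L - C ((q : ℤ) ^ (j * L)) : ℤ[X]).map (Int.castRingHom (ZMod l))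
          = (X - 1) ^ L := by
        rw [hL, sub_pow_char_pow, one_pow]
        simp only [Polynomial.map_sub, Polynomial.map_pow, map_X, map_pow, map_natCast,
          Polynomial.map_natCast]
        rw [show ((q : (ZMod l)[X])) = 1 from by
          rw [← map_natCast (C : ZMod l →+* (ZMod l)[X]), hq, map_one], one_pow]
      rwa [e] at this
    have hp : Prime (X - 1 : (ZMod l)[X]) := by
      have : (X - 1 : (ZMod l)[X]) = X - C 1 := by simp
      rw [this]
      exact prime_X_sub_C 1
    obtain ⟨i, _, hi⟩ := (dvd_prime_pow hp L).1 d3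
    have hmm : ((minpoly ℤ α).map (Int.castRingHom (ZMod l))).Monic := hm.map _
    have hmi : ((X - 1 : (ZMod l)[X]) ^ i).Monic := by
      have : (X - 1 : (ZMod l)[X]) = X - C 1 := by simp
      rw [this]
      exact (monic_X_sub_C 1).pow i
    have h1 := eq_of_monic_of_associated hmm hmi hi
    have h2 : i = (minpoly ℤ α).natDegree := by
      rw [← hm.natDegree_map (Int.castRingHom (ZMod l)), h1, natDegree_pow,
        show (X - 1 : (ZMod l)[X]) = X - C 1 by simp, natDegree_X_sub_C, mul_one]
    rw [h1, h2]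
  · intro β hβ
    obtain ⟨c, hc⟩ := d2
    have h1 := congrArg (fun P : ℤ[X] => (P.map (Int.castRingHom ℂ)).eval β) hc
    simp only [Polynomial.map_mul, eval_mul, hβ, zero_mul] at h1
    have h2 : ((X ^ L - C ((q : ℤ) ^ (j * L)) : ℤ[X]).map (Int.castRingHom ℂ)).eval β
        = β ^ L - (q : ℂ) ^ (j * L) := by simp
    rw [h2, sub_eq_zero] at h1
    exact h1

lemma rev_rev {R : ℤ[X]} (hR0 : R.coeff 0 = 1) : R.reverse.reverse = R := by
  have h1 : R.natTrailingDegree = 0 := by
    rw [natTrailingDegree_eq_zero]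
    right; rw [hR0]; exact one_ne_zero
  have h2 : R.reverse.natDegree = R.natDegree := by rw [reverse_natDegree, h1, Nat.sub_zero]
  rw [reverse, h2, reverse, reflect_reflect]

/-- the inverse of a product of a power of `q` and of a root of unity of `ℓ`-power order -/
def Tt (l q : ℕ) (z : ℂ) : Prop := ∃ b j : ℕ, (z * (q : ℂ) ^ j) ^ l ^ b = 1

open Classical in
/-- the number of these roots is bounded by the multiplicity of the root one modulo `ℓ` -/
theorem count_le (hq : (q : ZMod l) = 1) : ∀ (n : ℕ) (R : ℤ[X]), R.coeff 0 = 1 →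
    R.natDegree ≤ n → Multiset.card ((R.map (Int.castRingHom ℂ)).roots.filter (Tt l q)) ≤
      rootMultiplicity 1 (R.map (Int.castRingHom (ZMod l))) := by
  intro n
  induction n with
  | zero =>
    intro R hR0 hdeg
    have : R = C 1 := by
      rw [eq_C_of_natDegree_eq_zero (Nat.le_zero.1 hdeg), hR0]
    rw [this]
    simp
  | succ n ih =>
    intro R hR0 hdeg
    by_cases hemp : (R.map (Int.castRingHom ℂ)).roots.filter (Tt l q) = 0
    · rw [hemp]; simp
    obtain ⟨z, hz⟩ := Multiset.exists_mem_of_ne_zero hemp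
    rw [Multiset.mem_filter] at hz
    obtain ⟨hz1, b, j, hzb⟩ := hz
    have hRC : R.map (Int.castRingHom ℂ) ≠ 0 := by
      intro h
      have := congrArg (fun P : ℂ[X] => P.coeff 0) h
      simp [coeff_map, hR0] at this
    have hRz : (R.map (Int.castRingHom ℂ)).eval z = 0 := (mem_roots hRC).1 hz1
    have hz0 : z ≠ 0 := by
      rintro rfl
      rw [← coeff_zero_eq_eval_zero, coeff_map, hR0] at hRz
      simp at hRz
    have hαL : (z⁻¹) ^ l ^ b = (q : ℂ) ^ (j * l ^ b) := by
      rw [mul_pow, ← pow_mul] at hzb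
      rw [inv_pow]
      exact (eq_inv_of_mul_eq_one_right hzb).symm
    obtain ⟨hint, hred, _⟩ := min_red hq hαL
    set μ := minpoly ℤ z⁻¹ with hμ
    have hm : μ.Monic := minpoly.monic hint
    letI := invertibleOfNonzero hz0
    have hR1 : aeval z⁻¹ R.reverse = 0 := by
      have h1 : eval₂ (Int.castRingHom ℂ) z R = 0 := by rwa [← eval_map]
      have h2 := (eval₂_reverse_eq_zero_iff (Int.castRingHom ℂ) z R).2 h1
      rw [invOf_eq_inv] at h2
      rw [aeval_def]
      exact h2
    have d1 : μ ∣ R.reverse := minpoly.isIntegrallyClosed_dvd hint hR1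
    obtain ⟨ν, hν⟩ := d1
    have hfac : R = μ.reverse * ν.reverse := by
      rw [← reverse_mul_of_domain, ← hν, rev_rev hR0]
    set g := μ.reverse with hg
    set R' := ν.reverse with hR'
    have hg0 : g.coeff 0 = 1 := by rw [hg, coeff_zero_reverse, hm.leadingCoeff]
    have hR'0 : R'.coeff 0 = 1 := by
      have h1 := congrArg (fun P : ℤ[X] => P.coeff 0) hfac
      simp only [mul_coeff_zero, hg0, one_mul, hR0] at h1
      exact h1.symm
    have hgz : (g.map (Int.castRingHom ℂ)).eval z = 0 := by
      have h2 : eval₂ (Int.castRingHom ℂ) (z⁻¹) μ = 0 := by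
        have := minpoly.aeval ℤ z⁻¹
        rwa [aeval_def] at this
      letI := invertibleOfNonzero (inv_ne_zero hz0)
      have h3 := (eval₂_reverse_eq_zero_iff (Int.castRingHom ℂ) (z⁻¹) μ).2 h2
      rw [invOf_eq_inv, inv_inv] at h3
      rw [eval_map]
      exact h3
    have hgdeg : 0 < g.natDegree := by
      by_contra h
      have h1 : g = C 1 := by
        rw [eq_C_of_natDegree_eq_zero (show g.natDegree = 0 by omega), hg0]
      rw [h1] at hgz
      simp at hgz
    have hg' : g ≠ 0 := by
      intro h; rw [h] at hg0; simp at hg0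
    have hR'' : R' ≠ 0 := by
      intro h; rw [h] at hR'0; simp at hR'0
    have hdeg2 : R.natDegree = g.natDegree + R'.natDegree := by
      rw [hfac, natDegree_mul hg' hR'']
    have ih' := ih R' hR'0 (by omega)
    have hgbar : g.map (Int.castRingHom (ZMod l)) = (1 - X) ^ μ.natDegree := by
      rw [hg, reverse, ← reflect_map, hred, reflect_pow]
    have hgC : g.map (Int.castRingHom ℂ) * R'.map (Int.castRingHom ℂ) ≠ 0 := by
      rw [← Polynomial.map_mul, ← hfac]; exact hRC
    have hRbar : g.map (Int.castRingHom (ZMod l)) * R'.map (Int.castRingHom (ZMod l)) ≠ 0 := by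
      rw [← Polynomial.map_mul, ← hfac]
      intro h
      have := congrArg (fun P : (ZMod l)[X] => P.coeff 0) h
      simp [coeff_map, hR0] at this
    rw [hfac, Polynomial.map_mul, Polynomial.map_mul, roots_mul hgC, rootMultiplicity_mul hRbar,
      Multiset.filter_add, Multiset.card_add, hgbar, mult_one_sub]
    apply Nat.add_le_add _ ih'
    calc Multiset.card ((g.map (Int.castRingHom ℂ)).roots.filter (Tt l q))
        ≤ Multiset.card (g.map (Int.castRingHom ℂ)).roots :=
          Multiset.card_le_card (Multiset.filter_le _ _)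
      _ ≤ (g.map (Int.castRingHom ℂ)).natDegree := card_roots' _
      _ ≤ g.natDegree := natDegree_map_le
      _ ≤ μ.natDegree := reverse_natDegree_le μ

end Pool.Agent.T9h63.KT
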