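import Pool.Agent.T9h63.KT.Cong

set_option autoImplicit false
set_option maxHeartbeats 1000000

/-!
The congruence between the primitive polynomials of the layers of the Kummer towers.
-/

namespace Pool.Agent.T9h63.KT

open Function Polynomial Pool.Agent.W555.TC

section U

variable {F : Type*} [Field F]

open Classical in
/-- a unit of the ring of power series as an element of the group of units -/
noncomputable def U (f : PowerSeries F) : (PowerSeries F)ˣ := if h : IsUnit f then h.unit else 1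

lemma U_coe {f : PowerSeries F} (h : IsUnit f) : (U f : PowerSeries F) = f := by
  unfold U
  rw [dif_pos h]
  rfl

lemma U_mul {f g : PowerSeries F} (hf : IsUnit f) (hg : IsUnit g) : U (f * g) = U f * U g := by
  apply Units.ext
  rw [Units.val_mul, U_coe hf, U_coe hg, U_coe (hf.mul hg)]

lemma U_pow {f : PowerSeries F} (hf : IsUnit f) (n : ℕ) : U (f ^ n) = U f ^ n := by
  apply Units.ext
  rw [Units.val_pow_eq_pow_val, U_coe hf, U_coe (hf.pow n)]

lemma U_one : U (1 : PowerSeries F) = 1 := by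
  apply Units.ext
  rw [U_coe isUnit_one, Units.val_one]

lemma U_prod {ι : Type*} (s : Finset ι) (f : ι → PowerSeries F) (h : ∀ i ∈ s, IsUnit (f i)) :
    U (∏ i ∈ s, f i) = ∏ i ∈ s, U (f i) := by
  classical
  induction s using Finset.induction_on with
  | empty => simpa using U_one
  | insert a s ha ih =>
    rw [Finset.prod_insert ha, Finset.prod_insert ha, U_mul (h a (Finset.mem_insert_self a s)),
      ih fun i hi => h i (Finset.mem_insert_of_mem hi)]
    have : ∀ (t : Finset ι), (∀ i ∈ t, IsUnit (f i)) → IsUnit (∏ i ∈ t, f i) := by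
      intro t
      induction t using Finset.induction_on with
      | empty => intro _; simp
      | insert b t hb ih2 =>
        intro ht
        rw [Finset.prod_insert hb]
        exact (ht b (Finset.mem_insert_self b t)).mul
          (ih2 fun i hi => ht i (Finset.mem_insert_of_mem hi))
    exact this s fun i hi => h i (Finset.mem_insert_of_mem hi)

lemma isUnit_of_coeff {f : PowerSeries F} (h : PowerSeries.coeff 0 f = 1) : IsUnit f := by
  rw [PowerSeries.isUnit_iff_constantCoeff, ← PowerSeries.coeff_zero_eq_constantCoeff_apply, h]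
  exact isUnit_one

end U

section app

variable {l : ℕ} [hl : Fact l.Prime] {q : ℕ}

lemma unit_red {f : PowerSeries ℤ} (h : PowerSeries.coeff 0 f = 1) : IsUnit (red l f) := by
  apply isUnit_of_coeff
  unfold red
  rw [PowerSeries.coeff_map, h, map_one]

variable {Y : Type*} {Φ : Y → Y} (hfin : ∀ n : ℕ, 0 < n → {z | IsPeriodicPt Φ n z}.Finite)
  {s : Y → Prop} (hs : ∀ z, s z → s (Φ z)) {D : ℕ} {pts : ℕ → ℕ} {P : ℤ[X]}
  (hP : LogCoeffs P (cP q D pts)) (hpts : ∀ n, 0 < n → pts n = cnt Φ s n)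

omit hl in
lemma coeff_coe {P : ℤ[X]} (h : P.coeff 0 = 1) : PowerSeries.coeff 0 (P : PowerSeries ℤ) = 1 := by
  rw [Polynomial.coeff_coe, h]

/-- the unit `1 - T` -/
noncomputable def oT (l : ℕ) [Fact l.Prime] : (PowerSeries (ZMod l))ˣ :=
  U ((1 - X : (ZMod l)[X]) : PowerSeries (ZMod l))

lemma isUnit_oT : IsUnit ((1 - X : (ZMod l)[X]) : PowerSeries (ZMod l)) := by
  apply isUnit_of_coeff
  simp

include hfin hs hP hpts in
lemma unit_rel (hq : (q : ZMod l) = 1) :
    U (red l (zi Φ s)) = U (red l (P : PowerSeries ℤ)) ^ ((-1 : ℤ) ^ D) * oT l ^ (D + 1) := by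
  have u1 : IsUnit (red l (P : PowerSeries ℤ)) := unit_red (coeff_coe hP.1)
  have u2 : IsUnit (red l (zi Φ s)) := unit_red (coeff_zero_zi s)
  have u3 := isUnit_oT (l := l)
  rcases Nat.even_or_odd D with hD | hD
  · rw [hD.neg_one_pow, zpow_one, oT, ← U_pow u3, ← U_mul u1 (u3.pow _), ← Polynomial.coe_pow,
      ← red_facs hq, ← map_mul, rel_even hfin hs hP hpts hD]
  · rw [hD.neg_one_pow, zpow_neg, zpow_one, eq_inv_mul_iff_mul_eq, oT, ← U_pow u3, ← U_mul u1 u2,
      ← Polynomial.coe_pow, ← red_facs hq, ← map_mul, rel_odd hfin hs hP hpts hD]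

end app

section main

variable {k : Type*} [Field k] [Fintype k] {K : Type*} [Field K] [Algebra k K] [IsAlgClosed K]
  {M N : ℕ} (E : Set (MvPolynomial (Fin (M + 1)) k))
  (f : Fin (N + 1) → MvPolynomial (Fin (M + 1)) k)

/-- **The congruence.** -/
theorem congruence (hempty : ∀ v : Fin (M + 1) → K, onE E v → ∃ i, ev (f i) v ≠ 0)
    {l : ℕ} [hl : Fact l.Prime] (hq : l ∣ Fintype.card k - 1)
    (ptsI : Finset (Fin (N + 1)) → ℕ → ℕ)
    (hptsI : ∀ I, I ≠ Finset.univ → ∀ n, 0 < n → ptsI I n = cnt (Phi k K) (tI E f I) n)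
    (P : Finset (Fin (N + 1)) → ℤ[X])
    (hP : ∀ I, I ≠ Finset.univ → LogCoeffs (P I) (cP (Fintype.card k) (N - I.card) (ptsI I)))
    (a : ℕ) (pts : ℕ → ℕ)
    (hpts : ∀ n, 0 < n → pts n = cnt (Ph k K M N) (kum E f (l ^ a)) n)
    (R : ℤ[X]) (hR : LogCoeffs R (cP (Fintype.card k) N pts)) :
    R.map (Int.castRingHom (ZMod l)) = ∏ J ∈ (subs N).erase Finset.univ,
      (P J).map (Int.castRingHom (ZMod l)) ^ ((l ^ a) ^ (N - J.card) * (l ^ a - 1) ^ J.card) := by
  have hqm : ((Fintype.card k : ℕ) : ZMod l) = 1 := q_mod hq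
  have hm : ((l ^ a : ℕ) : K) ≠ 0 := by
    push_cast
    exact pow_ne_zero _ (l_ne_zero (K := K) hq)
  have hm1 : 1 ≤ l ^ a := Nat.one_le_pow _ _ hl.out.pos
  have key := grp (l ^ a) (fun I => U (red l (zi (Phi k K) (sI E f I))))
    (fun I => U (red l (zi (Phi k K) (tI E f I)))) (fun I => U (red l (P I : PowerSeries ℤ)))
    (oT l) (U (red l (zi (Ph k K M N) (kum E f (l ^ a))))) (U (red l (R : PowerSeries ℤ)))
    ?_ ?_ ?_ ?_ ?_
  · have uR : IsUnit (red l (R : PowerSeries ℤ)) := unit_red (coeff_coe hR.1)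
    have h1 := congrArg (fun u : (PowerSeries (ZMod l))ˣ => (u : PowerSeries (ZMod l))) key
    simp only [U_coe uR] at h1
    have h2 : ∀ J ∈ (subs N).erase Finset.univ,
        U (red l (P J : PowerSeries ℤ)) ^
          (((l ^ a : ℕ) : ℤ) ^ (N - J.card) * (((l ^ a : ℕ) : ℤ) - 1) ^ J.card)
        = U (red l (P J : PowerSeries ℤ)) ^ ((l ^ a) ^ (N - J.card) * (l ^ a - 1) ^ J.card) := by
      intro J _
      rw [← zpow_natCast]
      congr 1
      push_cast [hm1]
      rfl
    rw [Finset.prod_congr rfl h2, Units.coe_prod] at h1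
    rw [← Polynomial.coe_inj, ← red_coe, h1, coe_prod']
    apply Finset.prod_congr rfl
    intro J hJ
    rw [Units.val_pow_eq_pow_val,
      U_coe (unit_red (coeff_coe (hP J (Finset.mem_erase.1 hJ).1).1)), red_coe,
      Polynomial.coe_pow]
  · rw [zi_one (finPhi k K M) (sI_univ E f hempty), map_one, U_one]
  · intro I _
    show U (red l (zi (Phi k K) (tI E f I))) = _
    rw [zi_tI, map_prod, U_prod]
    intro J _
    exact unit_red (coeff_zero_zi _)
  · rw [zi_kum, map_prod, U_prod _ _ fun J _ => unit_red (coeff_zero_zi _),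
      ← Finset.mul_prod_erase _ _ (Finset.mem_univ Finset.univ),
      zi_one (fun n hn => fin_Ph hn) (fun p h => sI_univ E f hempty p.1 h.2), map_one, U_one,
      one_mul]
    apply Finset.prod_congr rfl
    intro J hJ
    have hJu : J ≠ Finset.univ := (Finset.mem_erase.1 hJ).1
    rw [red_cover (Phi k K) (Ph k K M N) Prod.fst (fun _ => rfl) (finPhi k K M)
      (fun n hn => fin_Ph hn) (sI E f J) (sI_Phi E f J) (kumI E f (l ^ a) J)
      (kumI_Ph E f (l ^ a) J) (fun p h => h.2) l a
      (fun p d hd h hp => per_kum E f hq a hJu p d hd h hp)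
      ((l ^ a) ^ (N - J.card)) (fun v _ hv => card_fibre E f hm hJu v hv),
      U_pow (unit_red (coeff_zero_zi _))]
  · intro I hI
    exact unit_rel (finPhi k K M) (tI_Phi E f I) (hP I hI) (hptsI I hI) hqm
  · exact unit_rel (fun n hn => fin_Ph hn) (kum_Ph E f (l ^ a)) hR hpts hqm

end main

end Pool.Agent.T9h63.KT
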