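import Pool.Agent.T9h63.KT.Main

set_option autoImplicit false
set_option maxHeartbeats 1000000

/-!
The congruence between the primitive polynomials of the layers of the Kummer towers.
-/

namespace Pool.Agent.T9h63.KT

open Function Polynomial Pool.Agent.W555.TC

section comb

variable {N : ℕ}

/-- the exponents -/
def ee (N m : ℕ) (J : Finset (Fin (N + 1))) : ℤ := (m : ℤ) ^ (N - J.card) * (1 - m) ^ J.card

lemma card_lt {I : Finset (Fin (N + 1))} (hI : I ≠ Finset.univ) : I.card < N + 1 := by
  have := (Finset.card_lt_iff_ne_univ I).2 hI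
  rwa [Fintype.card_fin] at this

lemma sum_ee (m : ℕ) {I : Finset (Fin (N + 1))} (hI : I ≠ Finset.univ) :
    ∑ J ∈ I.powerset, ee N m J = (m : ℤ) ^ (N - I.card) := by
  have hc := card_lt hI
  have h1 := Finset.sum_pow_mul_eq_add_pow (1 - (m : ℤ)) m I
  rw [sub_add_cancel, one_pow] at h1
  calc ∑ J ∈ I.powerset, ee N m J
      = ∑ J ∈ I.powerset, (m : ℤ) ^ (N - I.card) *
          ((1 - (m : ℤ)) ^ J.card * (m : ℤ) ^ (I.card - J.card)) := by
        apply Finset.sum_congr rfl
        intro J hJ
        have h2 : J.card ≤ I.card := Finset.card_le_card (Finset.mem_powerset.1 hJ)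
        unfold ee
        rw [show N - J.card = (N - I.card) + (I.card - J.card) by omega, pow_add]
        ring
    _ = (m : ℤ) ^ (N - I.card) := by rw [← Finset.mul_sum, h1, mul_one]

lemma sum_ee_card (m : ℕ) :
    ∑ J ∈ (subs N).erase Finset.univ, ee N m J * ((N - J.card + 1 : ℕ) : ℤ) = N + 1 := by
  have h1 : ∀ J ∈ (subs N).erase Finset.univ, ee N m J * ((N - J.card + 1 : ℕ) : ℤ)
      = ∑ i : Fin (N + 1), if i ∉ J then ee N m J else 0 := by
    intro J hJ
    have hc := card_lt (Finset.mem_erase.1 hJ).1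
    rw [← Finset.sum_filter, Finset.sum_const, nsmul_eq_mul, mul_comm]
    congr 2
    have : Finset.univ.filter (fun i => i ∉ J) = Jᶜ := by ext i; simp
    rw [this, Finset.card_compl, Fintype.card_fin]
    omega
  rw [Finset.sum_congr rfl h1, Finset.sum_comm]
  have h2 : ∀ i : Fin (N + 1), (∑ J ∈ (subs N).erase Finset.univ, if i ∉ J then ee N m J else 0)
      = 1 := by
    intro i
    rw [← Finset.sum_filter]
    have e : ((subs N).erase Finset.univ).filter (fun J => i ∉ J)
        = (Finset.univ.erase i).powerset := by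
      ext J
      simp only [Finset.mem_filter, Finset.mem_erase, Finset.mem_univ, Finset.mem_powerset,
        and_true]
      constructor
      · rintro ⟨_, h⟩ j hj
        exact Finset.mem_erase.2 ⟨fun h' => h (h' ▸ hj), Finset.mem_univ j⟩
      · intro h
        have : i ∉ J := fun hi => by simpa using h hi
        exact ⟨fun h' => this (h' ▸ Finset.mem_univ i), this⟩
    rw [e, sum_ee]
    · rw [Finset.card_erase_of_mem (Finset.mem_univ i), Finset.card_univ, Fintype.card_fin]
      simp
    · intro h
      have := Finset.mem_univ i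
      rw [← h] at this
      simp at this
  rw [Finset.sum_congr rfl fun i _ => h2 i]
  simp

end comb

section units

variable {G : Type*} [CommGroup G] {N : ℕ}

lemma prod_zpow_sum {ι : Type*} (s : Finset ι) (f : ι → ℤ) (g : G) :
    ∏ i ∈ s, g ^ f i = g ^ ∑ i ∈ s, f i := by
  classical
  induction s using Finset.induction_on with
  | empty => simp
  | insert a s ha ih => rw [Finset.prod_insert ha, Finset.sum_insert ha, ih, zpow_add]

/-- the identity in an abelian group -/
theorem grp (m : ℕ) (z t p : Finset (Fin (N + 1)) → G) (u y r : G)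
    (hz : z Finset.univ = 1)
    (ht : ∀ I, I ≠ Finset.univ → t I = ∏ J ∈ Finset.filter (fun J => I ⊆ J) (subs N), z J)
    (hy : y = ∏ J ∈ (subs N).erase Finset.univ, z J ^ (m ^ (N - J.card)))
    (hp : ∀ I, I ≠ Finset.univ → t I = p I ^ ((-1 : ℤ) ^ (N - I.card)) * u ^ (N - I.card + 1))
    (hr : y = r ^ ((-1 : ℤ) ^ N) * u ^ (N + 1)) :
    r = ∏ J ∈ (subs N).erase Finset.univ,
      p J ^ ((m : ℤ) ^ (N - J.card) * ((m : ℤ) - 1) ^ J.card) := by
  have h1 : y = ∏ J ∈ (subs N).erase Finset.univ, t J ^ ee N m J := by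
    have h2 : ∀ J ∈ (subs N).erase Finset.univ, t J ^ ee N m J
        = ∏ I ∈ (subs N).erase Finset.univ, if J ⊆ I then z I ^ ee N m J else 1 := by
      intro J hJ
      rw [ht J (Finset.mem_erase.1 hJ).1, ← Finset.prod_zpow, Finset.prod_filter]
      rw [← Finset.mul_prod_erase _ _ (Finset.mem_univ Finset.univ)]
      rw [if_pos (Finset.subset_univ J), hz, one_zpow, one_mul]
    rw [Finset.prod_congr rfl h2, Finset.prod_comm, hy]
    apply Finset.prod_congr rfl
    intro I hI
    have hIu := (Finset.mem_erase.1 hI).1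
    rw [← Finset.prod_filter]
    have e : ((subs N).erase Finset.univ).filter (fun J => J ⊆ I) = I.powerset := by
      ext J
      simp only [Finset.mem_filter, Finset.mem_erase, Finset.mem_univ, Finset.mem_powerset,
        and_true]
      constructor
      · exact fun h => h.2
      · intro h
        refine ⟨fun h' => hIu ?_, h⟩
        rw [h'] at h
        exact Finset.univ_subset_iff.1 h
    rw [e, prod_zpow_sum, sum_ee m hIu]
    norm_cast
  have h3 : y = (∏ J ∈ (subs N).erase Finset.univ,
      p J ^ ((m : ℤ) ^ (N - J.card) * ((m : ℤ) - 1) ^ J.card)) ^ ((-1 : ℤ) ^ N) * u ^ (N + 1) := by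
    rw [h1]
    have h4 : ∀ J ∈ (subs N).erase Finset.univ, t J ^ ee N m J
        = (p J ^ ((m : ℤ) ^ (N - J.card) * ((m : ℤ) - 1) ^ J.card)) ^ ((-1 : ℤ) ^ N) *
          u ^ (ee N m J * ((N - J.card + 1 : ℕ) : ℤ)) := by
      intro J hJ
      have hJu := (Finset.mem_erase.1 hJ).1
      have hc := card_lt hJu
      rw [hp J hJu, mul_zpow, ← zpow_mul, ← zpow_mul, ← zpow_natCast, ← zpow_mul]
      congr 2
      · unfold ee
        have h5 : (1 - (m : ℤ)) ^ J.card = (-1) ^ J.card * ((m : ℤ) - 1) ^ J.card := by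
          rw [← mul_pow]; congr 1; ring
        have h6 : (-1 : ℤ) ^ N = (-1) ^ (N - J.card) * (-1) ^ J.card := by
          rw [← pow_add]; congr 1; omega
        rw [h5, h6]
        ring
      · ring
    rw [Finset.prod_congr rfl h4, Finset.prod_mul_distrib, Finset.prod_zpow,
      prod_zpow_sum, sum_ee_card]
    norm_cast
  rw [h3] at hr
  have h7 := mul_right_cancel hr
  rcases neg_one_pow_eq_or ℤ N with h | h
  · rw [h, zpow_one, zpow_one] at h7
    exact h7.symm
  · rw [h, zpow_neg, zpow_one, zpow_neg, zpow_one] at h7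
    exact (inv_injective h7).symm

end units

end Pool.Agent.T9h63.KT
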