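import Pool.Agent.T9h63.KT.Zi

set_option autoImplicit false
set_option maxHeartbeats 1000000

/-!
Zeta functions modulo `ℓ` of coverings whose Frobenius orbits have `ℓ`-power length over the orbits of
the base.
-/

namespace Pool.Agent.T9h63.KT

open Function PowerSeries Pool.Agent.W555.TC

lemma red_fac_pow (l : ℕ) [hl : Fact l.Prime] (d j : ℕ) :
    red l (fac 1 (d * l ^ j)) = red l (fac 1 d) ^ (l ^ j) := by
  rw [red_fac_one, red_fac_one]
  have : (1 - Polynomial.X ^ (d * l ^ j) : Polynomial (ZMod l))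
      = (1 - Polynomial.X ^ d) ^ (l ^ j) := by
    rw [sub_pow_char_pow, one_pow, ← pow_mul]
  rw [this, Polynomial.coe_pow]

section cover

variable {Y Y' : Type*} (Φ : Y → Y) (Φ' : Y' → Y') (π : Y' → Y)
  (hπ : ∀ y, π (Φ' y) = Φ (π y))
  (hfin : ∀ n : ℕ, 0 < n → {z | IsPeriodicPt Φ n z}.Finite)
  (hfin' : ∀ n : ℕ, 0 < n → {z | IsPeriodicPt Φ' n z}.Finite)
  (s : Y → Prop) (hs : ∀ z, s z → s (Φ z)) (s' : Y' → Prop) (hs' : ∀ z, s' z → s' (Φ' z))
  (hss : ∀ z, s' z → s (π z)) (l a : ℕ) [hl : Fact l.Prime]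
  (hper : ∀ y (d : ℕ), 0 < d → s' y → IsPeriodicPt Φ d (π y) → IsPeriodicPt Φ' (d * l ^ a) y)

/-- the points above the orbits of length `d` -/
def ovr (d : ℕ) (y : Y') : Prop := s' y ∧ minimalPeriod Φ (π y) = d

include hπ in
lemma iter_comm (n : ℕ) (y : Y') : π (Φ'^[n] y) = Φ^[n] (π y) := by
  induction n generalizing y with
  | zero => rfl
  | succ n ih => rw [iterate_succ_apply, iterate_succ_apply, ih, hπ]

include hπ in
lemma per_map {n : ℕ} {y : Y'} (h : IsPeriodicPt Φ' n y) : IsPeriodicPt Φ n (π y) := by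
  unfold IsPeriodicPt IsFixedPt at *
  rw [← iter_comm Φ Φ' π hπ, h]

include hπ hs' in
lemma over_stable {d : ℕ} (hd : 0 < d) (y : Y') (h : ovr Φ π s' d y) :
    ovr Φ π s' d (Φ' y) := by
  refine ⟨hs' y h.1, ?_⟩
  rw [hπ, minimalPeriod_apply]
  · exact h.2
  · exact minimalPeriod_pos_iff_mem_periodicPts.1 (by rw [h.2]; exact hd)

include hπ hper in
lemma min_over {d : ℕ} (hd : 0 < d) {y : Y'} (h : ovr Φ π s' d y) :
    ∃ j ≤ a, minimalPeriod Φ' y = d * l ^ j := by
  have h1 : IsPeriodicPt Φ d (π y) := by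
    rw [← h.2]; exact isPeriodicPt_minimalPeriod _ _
  have h2 := hper y d hd h.1 h1
  have h3 : minimalPeriod Φ' y ∣ d * l ^ a := h2.minimalPeriod_dvd
  have h4 : d ∣ minimalPeriod Φ' y := by
    rw [← h.2]
    exact (per_map Φ Φ' π hπ (isPeriodicPt_minimalPeriod Φ' y)).minimalPeriod_dvd
  obtain ⟨e, he⟩ := h4
  rw [he] at h3
  have h5 : e ∣ l ^ a := Nat.dvd_of_mul_dvd_mul_left hd h3
  obtain ⟨j, hj, rfl⟩ := (Nat.dvd_prime_pow hl.out).1 h5
  exact ⟨j, hj, he⟩

include hπ hfin' hs' hper in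
lemma zi_over {d : ℕ} (hd : 0 < d) : zi Φ' (ovr Φ π s' d)
    = ∏ j ∈ Finset.range (a + 1), fac 1 (d * l ^ j) ^ ob Φ' (ovr Φ π s' d) (d * l ^ j) := by
  classical
  have hl0 : 0 < l := hl.out.pos
  have hst := over_stable Φ Φ' π hπ s' hs' hd
  have hLD : LD (∏ j ∈ Finset.range (a + 1),
      fac (1 : ℤ) (d * l ^ j) ^ ob Φ' (ovr Φ π s' d) (d * l ^ j))
      (∑ j ∈ Finset.range (a + 1),
        ((ob Φ' (ovr Φ π s' d) (d * l ^ j) : ℕ) : ℤ⟦X⟧) * cs 1 (d * l ^ j)) := by
    apply LD_prod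
    intro j _
    exact LD_pow (LD_fac 1 (Nat.mul_pos hd (pow_pos hl0 j))) _
  symm
  apply zi_unique hfin' hst hLD
  · rw [map_sum]
    apply Finset.sum_eq_zero
    intro j _
    rw [coeff_natCast_mul, cs_zero, mul_zero]
  · apply coeff_zero_prod'
    intro j _
    exact coeff_zero_pow' (coeff_zero_fac _ (Nat.mul_pos hd (pow_pos hl0 j))) _
  · intro n hn
    rw [cnt_eq hfin' hst hn, map_sum]
    push_cast
    rw [← Finset.sum_neg_distrib]
    have hzero : ∀ e ∈ n.divisors, (∀ j ∈ Finset.range (a + 1), e ≠ d * l ^ j) →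
        ob Φ' (ovr Φ π s' d) e = 0 := by
      intro e he hne
      unfold ob orb
      have : {z | minimalPeriod Φ' z = e ∧ ovr Φ π s' d z} = ∅ := by
        ext z
        simp only [Set.mem_setOf_eq, Set.mem_empty_iff_false, iff_false]
        rintro ⟨h1, h2⟩
        obtain ⟨j, hj, h3⟩ := min_over Φ Φ' π hπ s' l a hper hd h2
        exact hne j (Finset.mem_range.2 (by omega)) (h1.symm.trans h3)
      rw [this, Set.ncard_empty, Nat.zero_div]
    have hinj : Set.InjOn (fun j => d * l ^ j) (Finset.range (a + 1) : Set ℕ) := by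
      intro i _ j _ hij
      exact Nat.pow_right_injective hl.out.two_le (Nat.eq_of_mul_eq_mul_left hd hij)
    rw [← Finset.sum_image (f := fun e : ℕ => coeff n (((ob Φ' (ovr Φ π s' d) e : ℕ) : ℤ⟦X⟧)
      * cs 1 e)) hinj]
    have e1 : ∑ e ∈ Finset.image (fun j => d * l ^ j) (Finset.range (a + 1)),
        coeff n (((ob Φ' (ovr Φ π s' d) e : ℕ) : ℤ⟦X⟧) * cs 1 e)
        = ∑ e ∈ (Finset.image (fun j => d * l ^ j) (Finset.range (a + 1))) ∩ n.divisors,
        coeff n (((ob Φ' (ovr Φ π s' d) e : ℕ) : ℤ⟦X⟧) * cs 1 e) := by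
      symm
      apply Finset.sum_subset Finset.inter_subset_left
      intro e he hne
      have hdn : ¬ (e ∣ n) := fun h => hne (Finset.mem_inter.2 ⟨he, Nat.mem_divisors.2 ⟨h, hn.ne'⟩⟩)
      rw [coeff_natCast_mul, coeff_cs_one hn, if_neg hdn, mul_zero]
    rw [e1]
    have e2 : ∑ e ∈ (Finset.image (fun j => d * l ^ j) (Finset.range (a + 1))) ∩ n.divisors,
        coeff n (((ob Φ' (ovr Φ π s' d) e : ℕ) : ℤ⟦X⟧) * cs 1 e)
        = ∑ e ∈ n.divisors, -((e : ℤ) * (ob Φ' (ovr Φ π s' d) e : ℤ)) := by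
      rw [← Finset.sum_subset (Finset.inter_subset_right : (Finset.image (fun j => d * l ^ j)
        (Finset.range (a + 1))) ∩ n.divisors ⊆ n.divisors)]
      · apply Finset.sum_congr rfl
        intro e he
        rw [coeff_natCast_mul, coeff_cs_one hn,
          if_pos (Nat.dvd_of_mem_divisors (Finset.mem_inter.1 he).2)]
        ring
      · intro e he hne
        rw [hzero e he, Nat.cast_zero, mul_zero, neg_zero]
        intro j hj h
        exact hne (Finset.mem_inter.2 ⟨Finset.mem_image.2 ⟨j, hj, h.symm⟩, he⟩)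
    rw [e2]

include hπ hfin hfin' hs hs' hss hper in
/-- the number of points above the orbits of length `d` -/
lemma sum_over (M : ℕ) (hcard : ∀ y, y ∈ periodicPts Φ → s y → {y' | π y' = y ∧ s' y'}.ncard = M)
    {d : ℕ} (hd : 0 < d) :
    ∑ j ∈ Finset.range (a + 1), l ^ j * ob Φ' (ovr Φ π s' d) (d * l ^ j) = M * ob Φ s d := by
  classical
  have hl0 : 0 < l := hl.out.pos
  have hst := over_stable Φ Φ' π hπ s' hs' hd
  apply Nat.eq_of_mul_eq_mul_left hd
  have hF' : {y | ovr Φ π s' d y}.Finite := by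
    apply (hfin' (d * l ^ a) (Nat.mul_pos hd (pow_pos hl0 a))).subset
    intro y hy
    exact hper y d hd hy.1 (by rw [← hy.2]; exact isPeriodicPt_minimalPeriod _ _)
  have hF : {z | minimalPeriod Φ z = d ∧ s z}.Finite := by
    apply (hfin d hd).subset
    rintro z ⟨h, _⟩
    show IsPeriodicPt Φ d z
    rw [← h]; exact isPeriodicPt_minimalPeriod Φ z
  -- count by periods
  have h1 : {y | ovr Φ π s' d y}.ncard
      = ∑ j ∈ Finset.range (a + 1), (d * l ^ j) * ob Φ' (ovr Φ π s' d) (d * l ^ j) := by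
    have hterm : ∀ j ∈ Finset.range (a + 1), (d * l ^ j) * ob Φ' (ovr Φ π s' d) (d * l ^ j)
        = {z | minimalPeriod Φ' z = d * l ^ j ∧ ovr Φ π s' d z}.ncard := by
      intro j _
      rw [ncard_eq Φ' (ovr Φ π s' d) hfin' hst (Nat.mul_pos hd (pow_pos hl0 j))]
      unfold ob
      congr!
    rw [Finset.sum_congr rfl hterm, Set.ncard_eq_toFinset_card _ hF']
    rw [Finset.card_eq_sum_card_fiberwise (f := fun z => minimalPeriod Φ' z)
      (t := Finset.image (fun j => d * l ^ j) (Finset.range (a + 1)))]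
    · rw [Finset.sum_image]
      · apply Finset.sum_congr rfl
        intro j _
        rw [← Set.ncard_coe_finset]
        congr 1
        ext z
        simp only [Finset.coe_filter, Set.Finite.mem_toFinset, Set.mem_setOf_eq]
        tauto
      · intro i _ j _ hij
        exact Nat.pow_right_injective hl.out.two_le (Nat.eq_of_mul_eq_mul_left hd hij)
    · intro z hz
      have hz' := (Set.Finite.mem_toFinset hF').mp (by simpa using hz)
      obtain ⟨j, hj, h3⟩ := min_over Φ Φ' π hπ s' l a hper hd hz'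
      exact Finset.mem_coe.2 (Finset.mem_image.2 ⟨j, Finset.mem_range.2 (by omega), h3.symm⟩)
  -- count by fibres
  have h2 : {y | ovr Φ π s' d y}.ncard = M * {z | minimalPeriod Φ z = d ∧ s z}.ncard := by
    rw [Set.ncard_eq_toFinset_card _ hF', Set.ncard_eq_toFinset_card _ hF]
    rw [Finset.card_eq_sum_card_fiberwise (f := π) (t := hF.toFinset)]
    · rw [mul_comm, ← smul_eq_mul, ← Finset.sum_const]
      apply Finset.sum_congr rfl
      intro y hy
      have hy' := (Set.Finite.mem_toFinset hF).mp hy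
      rw [← hcard y (minimalPeriod_pos_iff_mem_periodicPts.1 (by rw [hy'.1]; exact hd)) hy'.2,
        ← Set.ncard_coe_finset]
      congr 1
      ext z
      simp only [Finset.coe_filter, Set.Finite.mem_toFinset, Set.mem_setOf_eq, ovr]
      constructor
      · rintro ⟨⟨h1, _⟩, h3⟩
        exact ⟨h3, h1⟩
      · rintro ⟨h1, h3⟩
        exact ⟨⟨h3, by rw [h1]; exact hy'.1⟩, h1⟩
    · intro z hz
      have hz' := (Set.Finite.mem_toFinset hF').mp (by simpa using hz)
      simp only [Finset.mem_coe, Set.Finite.mem_toFinset, Set.mem_setOf_eq]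
      exact ⟨hz'.2, hss z hz'.1⟩
  have h3 : {z | minimalPeriod Φ z = d ∧ s z}.ncard = d * ob Φ s d := by
    rw [ncard_eq Φ s hfin hs hd]
    unfold ob
    congr!
  rw [Finset.mul_sum]
  calc ∑ j ∈ Finset.range (a + 1), d * (l ^ j * ob Φ' (ovr Φ π s' d) (d * l ^ j))
      = ∑ j ∈ Finset.range (a + 1), (d * l ^ j) * ob Φ' (ovr Φ π s' d) (d * l ^ j) :=
        Finset.sum_congr rfl fun j _ => by ring
    _ = M * (d * ob Φ s d) := by rw [← h1, h2, h3]
    _ = d * (M * ob Φ s d) := by ring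

include hπ hfin hfin' hs hs' hss hper in
lemma red_over (M : ℕ) (hcard : ∀ y, y ∈ periodicPts Φ → s y → {y' | π y' = y ∧ s' y'}.ncard = M)
    {d : ℕ} (hd : 0 < d) :
    red l (zi Φ' (ovr Φ π s' d)) = red l (fac 1 d) ^ (M * ob Φ s d) := by
  rw [zi_over Φ Φ' π hπ hfin' s' hs' l a hper hd, map_prod,
    ← sum_over Φ Φ' π hπ hfin hfin' s hs s' hs' hss l a hper M hcard hd,
    ← Finset.prod_pow_eq_pow_sum]
  apply Finset.prod_congr rfl
  intro j _
  rw [map_pow, red_fac_pow, ← pow_mul]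

include hπ hfin hfin' hs hs' hss hper in
/-- **Zeta functions of coverings modulo `ℓ`.** -/
theorem red_cover (M : ℕ)
    (hcard : ∀ y, y ∈ periodicPts Φ → s y → {y' | π y' = y ∧ s' y'}.ncard = M) :
    red l (zi Φ' s') = red l (zi Φ s) ^ M := by
  classical
  rw [← map_pow]
  ext n
  have h1 : coeff n (zi Φ' s') = coeff n (∏ d ∈ Finset.Icc 1 n, zi Φ' (ovr Φ π s' d)) := by
    have hLD : LD (∏ d ∈ Finset.Icc 1 n, zi Φ' (ovr Φ π s' d))
        (∑ d ∈ Finset.Icc 1 n, lz Φ' (ovr Φ π s' d)) := by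
      apply LD_prod
      intro d hd
      exact LD_zi hfin' (over_stable Φ Φ' π hπ s' hs' (Finset.mem_Icc.1 hd).1)
    have hz : coeff 0 (∑ d ∈ Finset.Icc 1 n, lz Φ' (ovr Φ π s' d)) = 0 := by
      rw [map_sum]
      exact Finset.sum_eq_zero fun d _ => coeff_zero_lz _
    apply LD_unique (LD_zi hfin' hs') hLD (coeff_zero_lz s') hz (coeff_zero_zi s')
      (coeff_zero_prod' _ _ fun d _ => coeff_zero_zi _) n _ n le_rfl
    intro m hm
    rcases Nat.eq_zero_or_pos m with rfl | hm0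
    · rw [coeff_zero_lz, hz]
    · rw [coeff_lz s' hm0, map_sum]
      have e : ∀ d ∈ Finset.Icc 1 n, coeff m (lz Φ' (ovr Φ π s' d))
          = -(cnt Φ' (ovr Φ π s' d) m : ℤ) := fun d _ => coeff_lz _ hm0
      rw [Finset.sum_congr rfl e, Finset.sum_neg_distrib]
      congr 1
      -- restrict to the points above orbits of length at most `n`
      have hcu : cnt Φ' (fun y => s' y ∧ minimalPeriod Φ (π y) ∈ Finset.Icc 1 n) m
          = ∑ d ∈ Finset.Icc 1 n, cnt Φ' (ovr Φ π s' d) m := by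
        apply cnt_union hfin' (Finset.Icc 1 n) (fun d => ovr Φ π s' d) _ _ hm0
        · intro i _ j _ hij z h1 h2
          exact hij (h1.2.symm.trans h2.2)
        · intro z
          constructor
          · rintro ⟨h1, h2⟩
            exact ⟨_, h2, h1, rfl⟩
          · rintro ⟨i, hi, h1, h2⟩
            exact ⟨h1, h2 ▸ hi⟩
      have hsame : cnt Φ' s' m
          = cnt Φ' (fun y => s' y ∧ minimalPeriod Φ (π y) ∈ Finset.Icc 1 n) m := by
        unfold cnt
        congr 1
        ext z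
        simp only [Set.mem_setOf_eq]
        constructor
        · rintro ⟨h1, h2⟩
          have h3 := per_map Φ Φ' π hπ h1
          have h4 : minimalPeriod Φ (π z) ∣ m := h3.minimalPeriod_dvd
          exact ⟨h1, h2, Finset.mem_Icc.2 ⟨h3.minimalPeriod_pos hm0,
            (Nat.le_of_dvd hm0 h4).trans hm⟩⟩
        · rintro ⟨h1, h2, _⟩
          exact ⟨h1, h2⟩
      rw [hsame, hcu]
      push_cast
      rfl
  have h2 : coeff n (zi Φ s ^ M) = coeff n (∏ d ∈ Finset.Icc 1 n, fac (1 : ℤ) d ^ (M * ob Φ s d)) := by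
    have e : ∏ d ∈ Finset.Icc 1 n, fac (1 : ℤ) d ^ (M * ob Φ s d) = part Φ s n ^ M := by
      unfold part
      rw [← Finset.prod_pow]
      apply Finset.prod_congr rfl
      intro d _
      rw [← pow_mul, mul_comm]
    rw [e]
    have hz1 : coeff 0 ((M : ℤ⟦X⟧) * lz Φ s) = 0 := by
      rw [coeff_natCast_mul, coeff_zero_lz, mul_zero]
    have hz2 : coeff 0 ((M : ℤ⟦X⟧) * ∑ d ∈ Finset.Icc 1 n, ((ob Φ s d : ℕ) : ℤ⟦X⟧) * cs 1 d) = 0 := by
      rw [coeff_natCast_mul, coeff_zero_log_part, mul_zero]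
    apply LD_unique (LD_pow (LD_zi hfin hs) M) (LD_pow (LD_part s n) M) hz1 hz2
      (coeff_zero_pow' (coeff_zero_zi s) M) (coeff_zero_pow' (coeff_zero_part s n) M) n _ n le_rfl
    intro m hm
    rcases Nat.eq_zero_or_pos m with rfl | hm0
    · rw [hz1, hz2]
    · rw [coeff_natCast_mul, coeff_natCast_mul, coeff_lz s hm0, coeff_log_part hfin hs hm0 hm]
  have h3 : red l (∏ d ∈ Finset.Icc 1 n, zi Φ' (ovr Φ π s' d))
      = red l (∏ d ∈ Finset.Icc 1 n, fac (1 : ℤ) d ^ (M * ob Φ s d)) := by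
    rw [map_prod, map_prod]
    apply Finset.prod_congr rfl
    intro d hd
    rw [red_over Φ Φ' π hπ hfin hfin' s hs s' hs' hss l a hper M hcard (Finset.mem_Icc.1 hd).1,
      map_pow]
  have h4 := congrArg (coeff n) h3
  simp only [red, coeff_map] at h4 ⊢
  rw [h1, h2, h4]

end cover

end Pool.Agent.T9h63.KT
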