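import Pool.Agent.T9h63.KT.Count

set_option autoImplicit false
set_option maxHeartbeats 1000000

/-!
The final form of the theorem on Kummer towers.
-/

namespace Pool.Agent.T9h63.KT

open Function Polynomial Pool.Agent.W555.TC

section conseq

variable {l : ℕ} [hl : Fact l.Prime] {N : ℕ}

lemma map_ne_zero_of {P : ℤ[X]} (h : P.coeff 0 = 1) : P.map (Int.castRingHom (ZMod l)) ≠ 0 := by
  intro h0
  have := congrArg (fun P : (ZMod l)[X] => P.coeff 0) h0
  simp [coeff_map, h] at this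

lemma dvd_eval_iff (P : ℤ[X]) :
    (l : ℤ) ∣ P.eval 1 ↔ (P.map (Int.castRingHom (ZMod l))).eval 1 = 0 := by
  rw [← ZMod.intCast_zmod_eq_zero_iff_dvd, ← eq_intCast (Int.castRingHom (ZMod l)),
    ← Polynomial.eval₂_at_apply, map_one, ← eval_map]

lemma mult_formula (m : ℕ) {R : ℤ[X]} {P : Finset (Fin (N + 1)) → ℤ[X]}
    (hP : ∀ J, J ≠ Finset.univ → (P J).coeff 0 = 1)
    (h : R.map (Int.castRingHom (ZMod l)) = ∏ J ∈ (subs N).erase Finset.univ,
      (P J).map (Int.castRingHom (ZMod l)) ^ (m ^ (N - J.card) * (m - 1) ^ J.card)) :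
    rootMultiplicity 1 (R.map (Int.castRingHom (ZMod l))) = ∑ J ∈ (subs N).erase Finset.univ,
      rootMultiplicity 1 ((P J).map (Int.castRingHom (ZMod l))) *
        (m ^ (N - J.card) * (m - 1) ^ J.card) := by
  rw [h, mult_prod]
  · apply Finset.sum_congr rfl
    intro J hJ
    rw [mult_pow (map_ne_zero_of (hP J (Finset.mem_erase.1 hJ).1)), mul_comm]
  · intro J hJ
    exact pow_ne_zero _ (map_ne_zero_of (hP J (Finset.mem_erase.1 hJ).1))

lemma dvd_formula {m : ℕ} (hm : 2 ≤ m) {R : ℤ[X]} {P : Finset (Fin (N + 1)) → ℤ[X]}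
    (h : R.map (Int.castRingHom (ZMod l)) = ∏ J ∈ (subs N).erase Finset.univ,
      (P J).map (Int.castRingHom (ZMod l)) ^ (m ^ (N - J.card) * (m - 1) ^ J.card)) :
    (l : ℤ) ∣ R.eval 1 ↔ ∃ J, J ≠ Finset.univ ∧ (l : ℤ) ∣ (P J).eval 1 := by
  rw [dvd_eval_iff, h, eval_prod, Finset.prod_eq_zero_iff]
  constructor
  · rintro ⟨J, hJ, h0⟩
    rw [eval_pow] at h0
    exact ⟨J, (Finset.mem_erase.1 hJ).1, (dvd_eval_iff _).2 ((pow_eq_zero_iff
      (Nat.mul_pos (pow_pos (by omega) _) (pow_pos (by omega) _)).ne').1 h0)⟩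
  · rintro ⟨J, hJ, h0⟩
    refine ⟨J, Finset.mem_erase.2 ⟨hJ, Finset.mem_univ J⟩, ?_⟩
    rw [eval_pow, (dvd_eval_iff _).1 h0, zero_pow]
    exact (Nat.mul_pos (pow_pos (by omega) _) (pow_pos (by omega) _)).ne'

end conseq

end Pool.Agent.T9h63.KT
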