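import Pool.Agent.T9h63.KT.Ord
import Pool.Agent.W555.TC.Cov

set_option autoImplicit false
set_option maxHeartbeats 1000000

/-!
Strata of a projective variety and its Kummer coverings.
-/

namespace Pool.Agent.T9h63.KT

open Function Pool.Agent.W555.TC

section num

lemma geom_dvd {l : ℕ} {Q : ℕ} (hQ : 1 ≤ Q) (h : l ∣ Q - 1) :
    l ∣ ∑ s ∈ Finset.range l, Q ^ s := by
  have hmod : (Q : ZMod l) = 1 := by
    have := (ZMod.natCast_eq_zero_iff (Q - 1) l).2 h
    rw [Nat.cast_sub hQ, Nat.cast_one, sub_eq_zero] at this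
    exact this
  rw [← ZMod.natCast_eq_zero_iff]
  push_cast
  rw [hmod]
  simp

lemma pow_dvd {l Q : ℕ} (hQ : 1 ≤ Q) (h : l ∣ Q - 1) (a : ℕ) :
    (Q - 1) * l ^ a ∣ Q ^ l ^ a - 1 := by
  induction a with
  | zero => simp
  | succ a ih =>
    have h1 : 1 ≤ Q ^ l ^ a := Nat.one_le_pow _ _ hQ
    have h2 : l ∣ Q ^ l ^ a - 1 := h.trans ((Dvd.intro _ rfl).trans ih)
    have h3 := geom_dvd h1 h2
    have h4 : Q ^ l ^ (a + 1) - 1 = (Q ^ l ^ a - 1) * ∑ s ∈ Finset.range l, (Q ^ l ^ a) ^ s := by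
      have h6 : (Q ^ l ^ a - 1) * ∑ s ∈ Finset.range l, (Q ^ l ^ a) ^ s = (Q ^ l ^ a) ^ l - 1 := by
        zify [h1, Nat.one_le_pow l _ h1]
        rw [mul_comm]
        exact geom_sum_mul _ _
      rw [h6, ← pow_mul, pow_succ]
    rw [h4, pow_succ, ← mul_assoc]
    exact Nat.mul_dvd_mul ih h3

end num

section geo

variable {k : Type*} [Field k] [Fintype k] {K : Type*} [Field K] [Algebra k K]
  {M N : ℕ} (E : Set (MvPolynomial (Fin (M + 1)) k))
  (f : Fin (N + 1) → MvPolynomial (Fin (M + 1)) k)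

/-- the points of the variety `X` -/
def onE (v : Fin (M + 1) → K) : Prop := Nrm v ∧ ∀ g ∈ E, ev g v = 0

/-- the points of `X_I` -/
def tI (I : Finset (Fin (N + 1))) (v : Fin (M + 1) → K) : Prop :=
  onE E v ∧ ∀ i ∈ I, ev (f i) v = 0

/-- the points of the open part of `X_I` -/
def sI (I : Finset (Fin (N + 1))) (v : Fin (M + 1) → K) : Prop :=
  onE E v ∧ ∀ i, ev (f i) v = 0 ↔ i ∈ I

/-- the points of the Kummer covering -/
def kum (m : ℕ) (p : (Fin (M + 1) → K) × (Fin (N + 1) → K)) : Prop :=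
  onE E p.1 ∧ Nrm p.2 ∧ ∀ i j, p.2 i ^ m * ev (f j) p.1 = p.2 j ^ m * ev (f i) p.1

/-- the part of the Kummer covering above the open part of `X_I` -/
def kumI (m : ℕ) (I : Finset (Fin (N + 1))) (p : (Fin (M + 1) → K) × (Fin (N + 1) → K)) : Prop :=
  kum E f m p ∧ sI E f I p.1

/-- Frobenius on pairs -/
noncomputable def Ph (k : Type*) [Field k] [Fintype k] (K : Type*) [Field K] [Algebra k K]
    (M N : ℕ) : (Fin (M + 1) → K) × (Fin (N + 1) → K) → (Fin (M + 1) → K) × (Fin (N + 1) → K) :=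
  Prod.map (Phi k K) (Phi k K)

omit [Fintype k] in
lemma onE_or (v : Fin (M + 1) → K) : onE E v ∨ ¬ onE E v := em _

lemma onE_Phi {v : Fin (M + 1) → K} (h : onE E v) : onE E (Phi k K v) := by
  refine ⟨Nrm_Phi h.1, fun g hg => ?_⟩
  rw [ev_Phi, h.2 g hg, map_zero]

lemma tI_Phi (I : Finset (Fin (N + 1))) (v : Fin (M + 1) → K) (h : tI E f I v) :
    tI E f I (Phi k K v) := by
  refine ⟨onE_Phi E h.1, fun i hi => ?_⟩
  rw [ev_Phi, h.2 i hi, map_zero]

lemma sI_Phi (I : Finset (Fin (N + 1))) (v : Fin (M + 1) → K) (h : sI E f I v) :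
    sI E f I (Phi k K v) := by
  refine ⟨onE_Phi E h.1, fun i => ?_⟩
  rw [ev_Phi, map_eq_zero]
  exact h.2 i

lemma kum_Ph (m : ℕ) (p : (Fin (M + 1) → K) × (Fin (N + 1) → K)) (h : kum E f m p) :
    kum E f m (Ph k K M N p) := by
  refine ⟨onE_Phi E h.1, Nrm_Phi h.2.1, fun i j => ?_⟩
  show (fr k K (p.2 i)) ^ m * ev (f j) (Phi k K p.1) = (fr k K (p.2 j)) ^ m * ev (f i) (Phi k K p.1)
  rw [ev_Phi, ev_Phi, ← map_pow, ← map_pow, ← map_mul, ← map_mul, h.2.2 i j]

lemma kumI_Ph (m : ℕ) (I : Finset (Fin (N + 1))) (p : (Fin (M + 1) → K) × (Fin (N + 1) → K))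
    (h : kumI E f m I p) : kumI E f m I (Ph k K M N p) :=
  ⟨kum_Ph E f m p h.1, sI_Phi E f I _ h.2⟩

lemma fin_Ph {n : ℕ} (hn : 0 < n) : {z | IsPeriodicPt (Ph k K M N) n z}.Finite := by
  have : {z | IsPeriodicPt (Ph k K M N) n z}
      = {z | IsPeriodicPt (Phi k K) n z} ×ˢ {z | IsPeriodicPt (Phi k K) n z} := by
    ext z
    unfold Ph
    rw [Set.mem_setOf_eq, isPeriodicPt_prodMap]
    rfl
  rw [this]
  exact (fix_finite k K hn).prod (fix_finite k K hn)

/-- the first nonzero coordinate of a point of the Kummer covering -/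
lemma pivot {m : ℕ} {I : Finset (Fin (N + 1))} (hI : I ≠ Finset.univ)
    {p : (Fin (M + 1) → K) × (Fin (N + 1) → K)} (h : kumI E f m I p) :
    ∃ i0, i0 ∉ I ∧ p.2 i0 = 1 ∧ (∀ j < i0, p.2 j = 0) ∧
      ∀ i, p.2 i ^ m * ev (f i0) p.1 = ev (f i) p.1 := by
  obtain ⟨i0, h1, h2⟩ := h.1.2.1
  obtain ⟨j0, hj0⟩ : ∃ j, j ∉ I := by
    by_contra hne
    push Not at hne
    exact hI (Finset.eq_univ_of_forall hne)
  have hj : ev (f j0) p.1 ≠ 0 := fun h0 => hj0 ((h.2.2 j0).1 h0)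
  have h3 : ∀ i, p.2 i ^ m * ev (f i0) p.1 = ev (f i) p.1 := by
    intro i
    rw [h.1.2.2 i i0, h1, one_pow, one_mul]
  refine ⟨i0, ?_, h1, h2, h3⟩
  intro h4
  have h5 := (h.2.2 i0).2 h4
  apply hj
  rw [← h3 j0, h5, mul_zero]

lemma coord {m : ℕ} (hm : m ≠ 0) {I : Finset (Fin (N + 1))} (hI : I ≠ Finset.univ)
    {p : (Fin (M + 1) → K) × (Fin (N + 1) → K)} (h : kumI E f m I p) (i : Fin (N + 1)) :
    p.2 i = 0 ↔ i ∈ I := by
  obtain ⟨i0, h1, _, _, h3⟩ := pivot E f hI h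
  have h4 : ev (f i0) p.1 ≠ 0 := fun h0 => h1 ((h.2.2 i0).1 h0)
  rw [← h.2.2 i, ← h3 i]
  constructor
  · intro h0
    rw [h0, zero_pow hm, zero_mul]
  · intro h0
    rcases mul_eq_zero.1 h0 with h5 | h5
    · exact pow_eq_zero_iff hm |>.1 h5
    · exact absurd h5 h4

/-- the periods above the orbits of the base -/
lemma per_kum {l : ℕ} [hl : Fact l.Prime] (hq : l ∣ Fintype.card k - 1) (a : ℕ)
    {I : Finset (Fin (N + 1))} (hI : I ≠ Finset.univ)
    (p : (Fin (M + 1) → K) × (Fin (N + 1) → K)) (d : ℕ) (hd : 0 < d)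
    (h : kumI E f (l ^ a) I p) (hp : IsPeriodicPt (Phi k K) d p.1) :
    IsPeriodicPt (Ph k K M N) (d * l ^ a) p := by
  have hm : l ^ a ≠ 0 := pow_ne_zero a hl.out.ne_zero
  have hcard : 1 ≤ Fintype.card k := Fintype.card_pos
  unfold Ph
  rw [isPeriodicPt_prodMap]
  refine ⟨hp.mul_const _, ?_⟩
  rw [per_iff]
  intro i
  obtain ⟨i0, h1, _, _, h3⟩ := pivot E f hI h
  by_cases hi : p.2 i = 0
  · rw [hi, zero_pow (pow_ne_zero _ Fintype.card_ne_zero)]
  set Q := Fintype.card k ^ d with hQ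
  have hQ1 : 1 ≤ Q := Nat.one_le_pow _ _ hcard
  have hQl : l ∣ Q - 1 := by
    refine hq.trans ?_
    have := Nat.sub_dvd_pow_sub_pow (Fintype.card k) 1 d
    rwa [one_pow] at this
  have hval : ∀ j, ev (f j) p.1 ^ Q = ev (f j) p.1 := by
    intro j
    have := ev_per (f j) hp
    rwa [fr_iter] at this
  have h4 : ev (f i0) p.1 ≠ 0 := fun h0 => h1 ((h.2.2 i0).1 h0)
  have hc : (p.2 i ^ (l ^ a)) ^ Q = p.2 i ^ (l ^ a) := by
    have e : p.2 i ^ (l ^ a) = ev (f i) p.1 / ev (f i0) p.1 := by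
      rw [eq_div_iff h4, h3 i]
    rw [e, div_pow, hval, hval]
  have hone : (p.2 i ^ (Q - 1)) ^ (l ^ a) = 1 := by
    have h5 : p.2 i ^ (l ^ a) ≠ 0 := pow_ne_zero _ hi
    apply mul_right_cancel₀ h5
    rw [one_mul, ← pow_mul, mul_comm (Q - 1), pow_mul, ← pow_succ, Nat.sub_add_cancel hQ1, hc]
  obtain ⟨c, hcdvd⟩ := pow_dvd hQ1 hQl a
  have hQa : 1 ≤ Q ^ l ^ a := Nat.one_le_pow _ _ hQ1
  have e2 : Fintype.card k ^ (d * l ^ a) = (Q ^ l ^ a - 1) + 1 := by
    rw [Nat.sub_add_cancel hQa, hQ, ← pow_mul]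
  rw [e2, pow_succ, hcdvd, pow_mul, pow_mul, hone, one_pow, one_mul]

/-- the number of the `m`-th roots -/
lemma card_roots_eq [IsAlgClosed K] {m : ℕ} (hm : (m : K) ≠ 0) {c : K} (hc : c ≠ 0) :
    {z : K | z ^ m = c}.ncard = m := by
  have hm0 : 0 < m := Nat.pos_of_ne_zero fun h => hm (by rw [h, Nat.cast_zero])
  have hsep := Polynomial.separable_X_pow_sub_C c hm hc
  have hcard := Polynomial.card_rootSet_eq_natDegree (K := K) hsep (IsAlgClosed.splits _)
  rw [Polynomial.natDegree_X_pow_sub_C] at hcard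
  have e : {z : K | z ^ m = c} = (Polynomial.X ^ m - Polynomial.C c : Polynomial K).rootSet K := by
    ext z
    rw [Polynomial.mem_rootSet]
    simp only [Set.mem_setOf_eq, map_sub, map_pow, Polynomial.aeval_X, Polynomial.aeval_C,
      Algebra.algebraMap_self_apply, sub_eq_zero]
    exact ⟨fun h => ⟨Polynomial.X_pow_sub_C_ne_zero hm0 c, h⟩, fun h => h.2⟩
  rw [e, Set.ncard_eq_toFinset_card', Set.toFinset_card, hcard]

open Classical in
/-- the fibres -/
lemma card_fibre [IsAlgClosed K] {m : ℕ} (hm : (m : K) ≠ 0) {I : Finset (Fin (N + 1))}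
    (hI : I ≠ Finset.univ) (v : Fin (M + 1) → K) (hv : sI E f I v) :
    {p : (Fin (M + 1) → K) × (Fin (N + 1) → K) | p.1 = v ∧ kumI E f m I p}.ncard
      = m ^ (N - I.card) := by
  have hm0 : m ≠ 0 := fun h => hm (by rw [h, Nat.cast_zero])
  have hne : (Iᶜ : Finset (Fin (N + 1))).Nonempty := by
    rw [Finset.nonempty_iff_ne_empty, Ne, Finset.compl_eq_empty_iff]
    exact hI
  set i1 := (Iᶜ : Finset (Fin (N + 1))).min' hne with hi1
  have hi1m : i1 ∉ I := Finset.mem_compl.1 (Finset.min'_mem _ hne)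
  have hmin : ∀ j, j ∉ I → i1 ≤ j := fun j hj => Finset.min'_le _ _ (Finset.mem_compl.2 hj)
  have hf1 : ev (f i1) v ≠ 0 := fun h0 => hi1m ((hv.2 i1).1 h0)
  set S : Fin (N + 1) → Set K := fun j =>
    if j ∈ I then {0} else if j = i1 then {1} else {z | z ^ m = ev (f j) v / ev (f i1) v} with hS
  have heq : {p : (Fin (M + 1) → K) × (Fin (N + 1) → K) | p.1 = v ∧ kumI E f m I p}
      = (fun w => (v, w)) '' Set.pi Set.univ S := by
    ext p
    constructor
    · rintro ⟨h1, h2⟩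
      obtain ⟨i0, hi0, ha, hb, hc⟩ := pivot E f hI h2
      have h01 : i0 = i1 := by
        apply le_antisymm _ (hmin i0 hi0)
        by_contra hlt
        push Not at hlt
        exact hi1m ((coord E f hm0 hI h2 i1).1 (hb i1 hlt))
      subst h01
      refine ⟨p.2, fun j _ => ?_, by rw [← h1]⟩
      simp only [hS]
      split_ifs with hj hj2
      · exact (coord E f hm0 hI h2 j).2 hj
      · rw [hj2]; exact ha
      · show p.2 j ^ m = _
        rw [eq_div_iff hf1, ← h1]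
        exact hc j
    · rintro ⟨w, hw, rfl⟩
      have hw' : ∀ j, w j ^ m = ev (f j) v / ev (f i1) v := by
        intro j
        have := hw j (Set.mem_univ j)
        simp only [hS] at this
        split_ifs at this with hj hj2
        · rw [Set.mem_singleton_iff.1 this, zero_pow hm0, (hv.2 j).2 hj, zero_div]
        · rw [Set.mem_singleton_iff.1 this, one_pow, hj2, div_self hf1]
        · exact this
      refine ⟨rfl, ⟨hv.1, ⟨i1, ?_, fun j hj => ?_⟩, fun i j => ?_⟩, hv⟩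
      · have := hw i1 (Set.mem_univ i1)
        rw [hS] at this
        beta_reduce at this
        rw [if_neg hi1m, if_pos rfl] at this
        exact this
      · have hjI : j ∈ I := by
          by_contra hj2
          exact absurd (hmin j hj2) (not_le.2 hj)
        have := hw j (Set.mem_univ j)
        simp only [hS] at this
        rw [if_pos hjI] at this
        exact this
      · show w i ^ m * ev (f j) v = w j ^ m * ev (f i) v
        rw [hw', hw']
        field_simp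
  rw [heq, Set.ncard_image_of_injective _ (fun w w' h => (Prod.mk.inj h).2)]
  rw [← Nat.card_coe_set_eq, Nat.card_congr (Equiv.Set.univPi _), Nat.card_pi]
  have hcard : ∀ j, Nat.card (S j) = if j ∈ (Iᶜ : Finset (Fin (N + 1))).erase i1 then m else 1 := by
    intro j
    rw [Nat.card_coe_set_eq]
    simp only [hS]
    by_cases hj : j ∈ I
    · rw [if_pos hj, if_neg (by simp [hj]), Set.ncard_singleton]
    · rw [if_neg hj]
      by_cases hj2 : j = i1
      · rw [if_pos hj2, if_neg (by simp [hj2]), Set.ncard_singleton]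
      · rw [if_neg hj2, if_pos (by simp [hj, hj2])]
        apply card_roots_eq hm
        exact div_ne_zero (fun h0 => hj ((hv.2 j).1 h0)) hf1
  simp only [hcard]
  rw [Finset.prod_ite, Finset.prod_const_one, mul_one, Finset.prod_const]
  congr 1
  have e1 : Finset.filter (fun j => j ∈ (Iᶜ : Finset (Fin (N + 1))).erase i1) Finset.univ
      = (Iᶜ : Finset (Fin (N + 1))).erase i1 := by
    ext j; simp
  rw [e1, Finset.card_erase_of_mem (Finset.mem_compl.2 hi1m), Finset.card_compl, Fintype.card_fin]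
  omega

end geo

end Pool.Agent.T9h63.KT
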