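import Pool.Agent.T9h63.KT.Prim

set_option autoImplicit false
set_option maxHeartbeats 1000000

/-!
The zeta functions modulo `ℓ` of the Kummer towers.
-/

namespace Pool.Agent.T9h63.KT

open Function Pool.Agent.W555.TC

section main

variable {k : Type*} [Field k] [Fintype k] {K : Type*} [Field K] [Algebra k K] [IsAlgClosed K]
  {M N : ℕ} (E : Set (MvPolynomial (Fin (M + 1)) k))
  (f : Fin (N + 1) → MvPolynomial (Fin (M + 1)) k)
  (hempty : ∀ v : Fin (M + 1) → K, onE E v → ∃ i, ev (f i) v ≠ 0)
  {l : ℕ} [hl : Fact l.Prime]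

/-- all sets of indices -/
abbrev subs (N : ℕ) : Finset (Finset (Fin (N + 1))) := Finset.univ

/-- the expected order of the open part of `X_I` -/
def nu (N : ℕ) (I : Finset (Fin (N + 1))) : ℕ := if I.card = N then 1 else 0

lemma zi_one {Y : Type*} {Φ : Y → Y} (hfin : ∀ n : ℕ, 0 < n → {z | IsPeriodicPt Φ n z}.Finite)
    {s : Y → Prop} (h : ∀ z, ¬ s z) : zi Φ s = 1 := by
  have := zi_union hfin (∅ : Finset ℕ) (fun _ => s) (t := s) (by simp) (by simp)
    (by intro z; simp [h z])
  simpa using this

include hempty in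
omit [IsAlgClosed K] in
lemma sI_univ (v : Fin (M + 1) → K) : ¬ sI E f Finset.univ v := by
  intro h
  obtain ⟨i, hi⟩ := hempty v h.1
  exact hi ((h.2 i).2 (Finset.mem_univ i))

open Classical in
/-- the coordinates vanishing at a point -/
noncomputable def zs (v : Fin (M + 1) → K) : Finset (Fin (N + 1)) :=
  Finset.univ.filter fun i => ev (f i) v = 0

omit [IsAlgClosed K] [Fintype k] in
lemma sI_iff (I : Finset (Fin (N + 1))) (v : Fin (M + 1) → K) :
    sI E f I v ↔ onE E v ∧ I = zs f v := by
  unfold sI zs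
  constructor
  · rintro ⟨h1, h2⟩
    refine ⟨h1, ?_⟩
    ext i
    simp [h2 i]
  · rintro ⟨h1, h2⟩
    refine ⟨h1, fun i => ?_⟩
    rw [h2]
    simp

variable (k K) in
omit [IsAlgClosed K] in
lemma finPhi (M : ℕ) : ∀ n : ℕ, 0 < n →
    {z : Fin (M + 1) → K | IsPeriodicPt (Phi k K) n z}.Finite := fun n hn => fix_finite k K hn

omit [IsAlgClosed K] in
lemma zi_tI (I : Finset (Fin (N + 1))) :
    zi (Phi k K) (tI E f I) = ∏ J ∈ Finset.filter (fun J => I ⊆ J) (subs N), zi (Phi k K) (sI E f J) := by
  apply zi_union (finPhi k K M)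
  · intro J _
    exact sI_Phi E f J
  · intro J _ J' _ hne v h1 h2
    rw [sI_iff] at h1 h2
    exact hne (h1.2.trans h2.2.symm)
  · intro v
    constructor
    · rintro ⟨h1, h2⟩
      refine ⟨zs f v, ?_, (sI_iff E f _ v).2 ⟨h1, rfl⟩⟩
      rw [Finset.mem_filter]
      refine ⟨Finset.mem_univ _, fun i hi => ?_⟩
      unfold zs
      simp [h2 i hi]
    · rintro ⟨J, hJ, h1, h2⟩
      exact ⟨h1, fun i hi => (h2 i).2 ((Finset.mem_filter.1 hJ).2 hi)⟩

omit [IsAlgClosed K] in
lemma zi_kum (m : ℕ) :
    zi (Ph k K M N) (kum E f m) = ∏ J ∈ (subs N), zi (Ph k K M N) (kumI E f m J) := by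
  apply zi_union fun n hn => fin_Ph hn
  · intro J _
    exact kumI_Ph E f m J
  · intro J _ J' _ hne v h1 h2
    have h3 := h1.2
    have h4 := h2.2
    rw [sI_iff] at h3 h4
    exact hne (h3.2.trans h4.2.symm)
  · intro p
    constructor
    · intro h
      exact ⟨zs f p.1, Finset.mem_univ _, h, (sI_iff E f _ p.1).2 ⟨h.1, rfl⟩⟩
    · rintro ⟨J, _, h, _⟩
      exact h

/-- the number of the maximal proper subsets containing a given one -/
lemma sum_nu (I : Finset (Fin (N + 1))) :
    ∑ J ∈ (Finset.filter (fun J => I ⊆ J) (subs N)).erase Finset.univ, nu N J = N + 1 - I.card := by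
  unfold nu
  rw [← Finset.sum_filter, Finset.sum_const, smul_eq_mul, mul_one]
  have e : Finset.filter (fun J => J.card = N) ((Finset.filter (fun J => I ⊆ J) (subs N)).erase Finset.univ)
      = Iᶜ.image (fun i => Finset.univ.erase i) := by
    ext J
    simp only [Finset.mem_filter, Finset.mem_erase, Finset.mem_univ, true_and, Finset.mem_image,
      Finset.mem_compl]
    constructor
    · rintro ⟨⟨h1, h2⟩, h3⟩
      have h4 : (Jᶜ).card = 1 := by
        rw [Finset.card_compl, Fintype.card_fin, h3]; omega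
      obtain ⟨i, hi⟩ := Finset.card_eq_one.1 h4
      refine ⟨i, ?_, ?_⟩
      · intro hiI
        have : i ∈ Jᶜ := by rw [hi]; exact Finset.mem_singleton_self i
        exact (Finset.mem_compl.1 this) (h2 hiI)
      · rw [← compl_compl J, hi]
        ext j; simp
    · rintro ⟨i, hi, rfl⟩
      refine ⟨⟨?_, ?_⟩, ?_⟩
      · intro h
        have := Finset.mem_univ i
        rw [← h] at this
        simp at this
      · intro j hj
        rw [Finset.mem_erase]
        exact ⟨fun h => hi (h ▸ hj), Finset.mem_univ j⟩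
      · rw [Finset.card_erase_of_mem (Finset.mem_univ i), Finset.card_univ, Fintype.card_fin]
        rfl
  rw [e, Finset.card_image_of_injective, Finset.card_compl, Fintype.card_fin]
  intro i j hij
  by_contra hne
  have h1 : j ∈ (Finset.univ : Finset (Fin (N + 1))).erase i :=
    Finset.mem_erase.2 ⟨fun h => hne h.symm, Finset.mem_univ j⟩
  have hij' : (Finset.univ : Finset (Fin (N + 1))).erase i = Finset.univ.erase j := hij
  rw [hij'] at h1
  simp at h1

include hempty in
omit [IsAlgClosed K] in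
/-- the order at `T = 1` modulo `ℓ` of the open part of `X_I` -/
theorem Od_sI (hX : ∀ I : Finset (Fin (N + 1)), I ≠ Finset.univ →
      Od (red l (zi (Phi k K) (tI E f I))) (N + 1 - I.card)) :
    ∀ (c : ℕ) (I : Finset (Fin (N + 1))), I ≠ Finset.univ → N + 1 - I.card ≤ c →
      Od (red l (zi (Phi k K) (sI E f I))) (nu N I) := by
  intro c
  induction c with
  | zero =>
    intro I hI hc
    have := (Finset.card_lt_iff_ne_univ I).2 hI
    rw [Fintype.card_fin] at this
    omega
  | succ c ih =>
    intro I hI hc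
    have hIc : I.card < N + 1 := by
      have := (Finset.card_lt_iff_ne_univ I).2 hI
      rwa [Fintype.card_fin] at this
    have h1 := hX I hI
    rw [zi_tI, map_prod] at h1
    have hu : Finset.univ ∈ Finset.filter (fun J => I ⊆ J) (subs N) := by
      rw [Finset.mem_filter]
      exact ⟨Finset.mem_univ _, Finset.subset_univ _⟩
    rw [← Finset.mul_prod_erase _ _ hu, zi_one (finPhi k K M) (sI_univ E f hempty), map_one,
      one_mul] at h1
    have hI2 : I ∈ (Finset.filter (fun J => I ⊆ J) (subs N)).erase Finset.univ := by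
      rw [Finset.mem_erase, Finset.mem_filter]
      exact ⟨hI, Finset.mem_univ _, subset_rfl⟩
    rw [← Finset.mul_prod_erase _ _ hI2] at h1
    have h2 := sum_nu I
    rw [← Finset.add_sum_erase _ _ hI2] at h2
    rw [← h2] at h1
    apply h1.cancel
    apply Od_prod
    intro J hJ
    rw [Finset.mem_erase, Finset.mem_erase, Finset.mem_filter] at hJ
    apply ih J hJ.2.1
    have h3 : I.card < J.card := Finset.card_lt_card (lt_of_le_of_ne hJ.2.2.2 (Ne.symm hJ.1))
    omega

include hempty in
/-- the order at `T = 1` modulo `ℓ` of the Kummer coverings -/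
theorem Od_kum (hq : l ∣ Fintype.card k - 1) (a : ℕ)
    (hX : ∀ I : Finset (Fin (N + 1)), I ≠ Finset.univ →
      Od (red l (zi (Phi k K) (tI E f I))) (N + 1 - I.card)) :
    Od (red l (zi (Ph k K M N) (kum E f (l ^ a)))) (N + 1) := by
  have hm : ((l ^ a : ℕ) : K) ≠ 0 := by
    push_cast
    exact pow_ne_zero _ (l_ne_zero (K := K) hq)
  have hsum := sum_nu (∅ : Finset (Fin (N + 1)))
  have hUn : Finset.filter (fun J => ∅ ⊆ J) (subs N) = (subs N) := by
    ext J; simp
  rw [Finset.card_empty, Nat.sub_zero, hUn] at hsum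
  rw [zi_kum, map_prod, ← Finset.mul_prod_erase _ _ (Finset.mem_univ Finset.univ),
    zi_one (fun n hn => fin_Ph hn) (fun p h => sI_univ E f hempty p.1 h.2), map_one, one_mul]
  suffices key : Od (∏ J ∈ Finset.erase (subs N) Finset.univ,
      red l (zi (Ph k K M N) (kumI E f (l ^ a) J)))
      (∑ J ∈ Finset.erase (subs N) Finset.univ, nu N J) by
    rw [hsum] at key
    exact key
  apply Od_prod
  intro J hJ
  have hJu : J ≠ Finset.univ := (Finset.mem_erase.1 hJ).1
  rw [red_cover (Phi k K) (Ph k K M N) Prod.fst (fun _ => rfl) (finPhi k K M)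
    (fun n hn => fin_Ph hn) (sI E f J) (sI_Phi E f J) (kumI E f (l ^ a) J)
    (kumI_Ph E f (l ^ a) J) (fun p h => h.2) l a
    (fun p d hd h hp => per_kum E f hq a hJu p d hd h hp)
    ((l ^ a) ^ (N - J.card)) (fun v _ hv => card_fibre E f hm hJu v hv)]
  have h1 := (Od_sI E f hempty hX (N + 1) J hJu (by omega)).pow ((l ^ a) ^ (N - J.card))
  have h2 : (l ^ a) ^ (N - J.card) * nu N J = nu N J := by
    unfold nu
    split_ifs with h
    · rw [h, Nat.sub_self, pow_zero, one_mul]
    · rw [mul_zero]
  rwa [h2] at h1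

end main

end Pool.Agent.T9h63.KT
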