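import Pool.Agent.T9h63.KT.Cov

set_option autoImplicit false
set_option maxHeartbeats 1000000

/-!
The order at `T = 1` of power series which are rational functions.
-/

namespace Pool.Agent.T9h63.KT

open Polynomial

section od

variable {F : Type*} [Field F]

/-- `Z` is a rational function with a zero of order `ν` at `T = 1`. -/
def Od (Z : PowerSeries F) (ν : ℕ) : Prop :=
  ∃ A B : F[X], A.eval 1 ≠ 0 ∧ B.eval 1 ≠ 0 ∧
    (A : PowerSeries F) * Z = ((B * (1 - X) ^ ν : F[X]) : PowerSeries F)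

lemma Od_one : Od (1 : PowerSeries F) 0 :=
  ⟨1, 1, by simp, by simp, by simp⟩

lemma Od.mul {Z W : PowerSeries F} {m n : ℕ} (hZ : Od Z m) (hW : Od W n) : Od (Z * W) (m + n) := by
  obtain ⟨A, B, hA, hB, h⟩ := hZ
  obtain ⟨A', B', hA', hB', h'⟩ := hW
  refine ⟨A * A', B * B', by simp [hA, hA'], by simp [hB, hB'], ?_⟩
  have : ((B * B' * (1 - X) ^ (m + n) : F[X]) : PowerSeries F)
      = ((B * (1 - X) ^ m : F[X]) : PowerSeries F) * ((B' * (1 - X) ^ n : F[X]) : PowerSeries F) := by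
    rw [← Polynomial.coe_mul]
    congr 1
    ring
  rw [this, ← h, ← h', Polynomial.coe_mul]
  ring

lemma Od.pow {Z : PowerSeries F} {m : ℕ} (hZ : Od Z m) (n : ℕ) : Od (Z ^ n) (n * m) := by
  induction n with
  | zero => simpa using Od_one
  | succ n ih =>
    rw [pow_succ, Nat.succ_mul]
    exact ih.mul hZ

lemma Od_prod {ι : Type*} (S : Finset ι) (Z : ι → PowerSeries F) (m : ι → ℕ)
    (h : ∀ i ∈ S, Od (Z i) (m i)) : Od (∏ i ∈ S, Z i) (∑ i ∈ S, m i) := by
  classical
  induction S using Finset.induction_on with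
  | empty => simpa using Od_one
  | insert a S ha ih =>
    rw [Finset.prod_insert ha, Finset.sum_insert ha]
    exact (h a (Finset.mem_insert_self a S)).mul
      (ih fun i hi => h i (Finset.mem_insert_of_mem hi))

lemma one_sub_X_ne : (1 - X : F[X]) ≠ 0 := by
  intro h
  have := congrArg (Polynomial.eval 0) h
  simp at this

lemma Od.cancel {Z W : PowerSeries F} {m n : ℕ} (h : Od (Z * W) (m + n)) (hW : Od W n) :
    Od Z m := by
  obtain ⟨A, B, hA, hB, h⟩ := h
  obtain ⟨A', B', hA', hB', h'⟩ := hW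
  refine ⟨A * B', A' * B, by simp [hA, hB'], by simp [hA', hB], ?_⟩
  have hne : (((1 - X) ^ n : F[X]) : PowerSeries F) ≠ 0 := by
    rw [Ne, Polynomial.coe_eq_zero_iff]
    exact pow_ne_zero n one_sub_X_ne
  apply mul_right_cancel₀ hne
  have e1 : ((A' * B * (1 - X) ^ m : F[X]) : PowerSeries F) * (((1 - X) ^ n : F[X]) : PowerSeries F)
      = (A' : PowerSeries F) * ((B * (1 - X) ^ (m + n) : F[X]) : PowerSeries F) := by
    rw [← Polynomial.coe_mul, ← Polynomial.coe_mul]
    congr 1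
    ring
  have e2 : ((A * B' : F[X]) : PowerSeries F) * Z * (((1 - X) ^ n : F[X]) : PowerSeries F)
      = (A : PowerSeries F) * Z * ((B' * (1 - X) ^ n : F[X]) : PowerSeries F) := by
    rw [Polynomial.coe_mul, Polynomial.coe_mul]
    ring
  rw [e1, ← h, e2, ← h']
  ring

lemma Od_poly {P : F[X]} (h : P.eval 1 ≠ 0) (n : ℕ) :
    Od ((P * (1 - X) ^ n : F[X]) : PowerSeries F) n :=
  ⟨1, P, by simp, h, by simp⟩

lemma Od_inv {P : F[X]} (h : P.eval 1 ≠ 0) {Z : PowerSeries F} {n : ℕ}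
    (hZ : (P : PowerSeries F) * Z = (((1 - X) ^ n : F[X]) : PowerSeries F)) : Od Z n :=
  ⟨P, 1, h, by simp, by rw [hZ, one_mul]⟩

lemma eval_ne_of_Od {P : F[X]} {n : ℕ} (h : Od ((P * (1 - X) ^ n : F[X]) : PowerSeries F) n) :
    P.eval 1 ≠ 0 := by
  obtain ⟨A, B, hA, hB, h⟩ := h
  rw [← Polynomial.coe_mul, Polynomial.coe_inj] at h
  have h2 : (A * P) * (1 - X) ^ n = B * (1 - X) ^ n := by rw [← h]; ring
  have h3 := mul_right_cancel₀ (pow_ne_zero n one_sub_X_ne) h2
  intro h0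
  apply hB
  rw [← h3, eval_mul, h0, mul_zero]

lemma eval_ne_of_Od' {P : F[X]} {Z : PowerSeries F} {n : ℕ} (h : Od Z n)
    (hZ : (P : PowerSeries F) * Z = (((1 - X) ^ n : F[X]) : PowerSeries F)) : P.eval 1 ≠ 0 := by
  obtain ⟨A, B, hA, hB, h⟩ := h
  have h1 : ((A * (1 - X) ^ n : F[X]) : PowerSeries F)
      = ((P * B * (1 - X) ^ n : F[X]) : PowerSeries F) := by
    rw [Polynomial.coe_mul, ← hZ]
    have : ((P * B * (1 - X) ^ n : F[X]) : PowerSeries F)
        = (P : PowerSeries F) * ((B * (1 - X) ^ n : F[X]) : PowerSeries F) := by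
      rw [← Polynomial.coe_mul]; congr 1; ring
    rw [this, ← h]
    ring
  rw [Polynomial.coe_inj] at h1
  have h3 := mul_right_cancel₀ (pow_ne_zero n one_sub_X_ne) h1
  intro h0
  apply hA
  rw [h3, eval_mul, h0, zero_mul]

end od

section eigen

/-- If a zero `z` of `R` satisfies `(z q^j)^(l^b) = 1` then `l` divides `R(1)`. -/
theorem eigen {l : ℕ} [hl : Fact l.Prime] {q : ℕ} (hq : (q : ZMod l) = 1) {R : ℤ[X]}
    (hR0 : R.coeff 0 = 1) {z : ℂ} (hz : (R.map (Int.castRingHom ℂ)).eval z = 0) {b j : ℕ}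
    (hzb : (z * (q : ℂ) ^ j) ^ l ^ b = 1) : (l : ℤ) ∣ R.eval 1 := by
  have hz0 : z ≠ 0 := by
    rintro rfl
    rw [← coeff_zero_eq_eval_zero, coeff_map, hR0] at hz
    simp at hz
  set α : ℂ := z⁻¹ with hα
  set L := l ^ b with hL
  have hLpos : 0 < L := pow_pos hl.out.pos b
  have hαL : α ^ L = (q : ℂ) ^ (j * L) := by
    rw [mul_pow, ← pow_mul] at hzb
    rw [hα, inv_pow]
    exact (eq_inv_of_mul_eq_one_right hzb).symm
  have hmono : (X ^ L - C ((q : ℤ) ^ (j * L)) : ℤ[X]).Monic := monic_X_pow_sub_C _ hLpos.ne'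
  have hroot : aeval α (X ^ L - C ((q : ℤ) ^ (j * L)) : ℤ[X]) = 0 := by
    simp [hαL]
  have hint : IsIntegral ℤ α := ⟨_, hmono, hroot⟩
  have hR1 : aeval α R.reverse = 0 := by
    have h1 : eval₂ (Int.castRingHom ℂ) z R = 0 := by rwa [← eval_map]
    letI := invertibleOfNonzero hz0
    have h2 := (eval₂_reverse_eq_zero_iff (Int.castRingHom ℂ) z R).2 h1
    rw [invOf_eq_inv] at h2
    rw [aeval_def]
    exact h2
  have d1 : minpoly ℤ α ∣ R.reverse := minpoly.isIntegrallyClosed_dvd hint hR1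
  have d2 : minpoly ℤ α ∣ (X ^ L - C ((q : ℤ) ^ (j * L)) : ℤ[X]) :=
    minpoly.isIntegrallyClosed_dvd hint hroot
  have hm := minpoly.monic hint
  have hdeg : 0 < (minpoly ℤ α).natDegree := minpoly.natDegree_pos hint
  have e1 : (minpoly ℤ α).eval 1 ∣ R.eval 1 := by
    have h3 := eval_dvd (x := 1) d1
    have h4 : R.reverse.eval 1 = R.eval 1 := by
      letI : Invertible (1 : ℤ) := invertibleOne
      have h5 := eval₂_reverse_mul_pow (RingHom.id ℤ) (1 : ℤ) R
      simpa using h5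
    rwa [h4] at h3
  refine dvd_trans ?_ e1
  rw [← ZMod.intCast_zmod_eq_zero_iff_dvd, ← eq_intCast (Int.castRingHom (ZMod l))]
  have h6 : Int.castRingHom (ZMod l) ((minpoly ℤ α).eval 1)
      = ((minpoly ℤ α).map (Int.castRingHom (ZMod l))).eval 1 := by
    rw [eval_map, ← map_one (Int.castRingHom (ZMod l)), eval₂_at_apply]
  rw [h6]
  have d3 : (minpoly ℤ α).map (Int.castRingHom (ZMod l)) ∣ (X - 1) ^ L := by
    have := Polynomial.map_dvd (Int.castRingHom (ZMod l)) d2
    have e : (X ^ L - C ((q : ℤ) ^ (j * L)) : ℤ[X]).map (Int.castRingHom (ZMod l))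
        = (X - 1) ^ L := by
      rw [hL, sub_pow_char_pow, one_pow]
      simp only [Polynomial.map_sub, Polynomial.map_pow, map_X, map_pow, map_natCast,
        Polynomial.map_natCast]
      rw [show ((q : (ZMod l)[X])) = 1 from by
        rw [← map_natCast (C : ZMod l →+* (ZMod l)[X]), hq, map_one], one_pow]
    rwa [e] at this
  by_contra hne
  have hcop : IsCoprime ((minpoly ℤ α).map (Int.castRingHom (ZMod l))) ((X - 1) ^ L) := by
    apply IsCoprime.pow_right
    rw [isCoprime_comm]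
    have h7 : (X - 1 : (ZMod l)[X]) = X - C 1 := by simp
    rw [h7]
    apply (Irreducible.coprime_iff_not_dvd (irreducible_X_sub_C 1)).2
    rw [dvd_iff_isRoot]
    exact hne
  have hu : IsUnit ((minpoly ℤ α).map (Int.castRingHom (ZMod l))) :=
    isUnit_of_dvd_unit (dvd_refl _) (hcop.isUnit_of_dvd' (dvd_refl _) d3)
  have hd0 := natDegree_eq_zero_of_isUnit hu
  rw [hm.natDegree_map] at hd0
  omega

end eigen

end Pool.Agent.T9h63.KT
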