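import Pool.Agent.T9h63.KT.Geo
import Pool.Agent.W555.TC.Main

set_option autoImplicit false
set_option maxHeartbeats 1000000

/-!
Primitive parts of zeta functions and orders at `T = 1` modulo `ℓ`.
-/

namespace Pool.Agent.T9h63.KT

open Function Polynomial Pool.Agent.W555.TC

/-- the coefficients of the logarithmic derivative of the primitive part -/
noncomputable def cP (q D : ℕ) (pts : ℕ → ℕ) (n : ℕ) : ℤ :=
  (-1) ^ D * ((∑ j ∈ Finset.range (D + 1), ((q : ℤ) ^ n) ^ j) - (pts n : ℤ))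

section prim

variable {l : ℕ} [hl : Fact l.Prime] {q : ℕ}

lemma red_fac_q (hq : (q : ZMod l) = 1) (j : ℕ) :
    red l (fac ((q : ℤ) ^ j) 1) = ((1 - X : (ZMod l)[X]) : PowerSeries (ZMod l)) := by
  unfold fac red
  simp only [map_sub, map_one, map_mul, PowerSeries.map_C, map_pow, PowerSeries.map_X, pow_one,
    Polynomial.coe_sub, Polynomial.coe_one, Polynomial.coe_X]
  have : (Int.castRingHom (ZMod l)) (q : ℤ) = 1 := by simp [hq]
  rw [this, map_one, one_pow, one_mul]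

lemma red_facs (hq : (q : ZMod l) = 1) (D : ℕ) :
    red l (∏ j ∈ Finset.range (D + 1), fac ((q : ℤ) ^ j) 1)
      = (((1 - X) ^ (D + 1) : (ZMod l)[X]) : PowerSeries (ZMod l)) := by
  rw [map_prod, Finset.prod_congr rfl fun j _ => red_fac_q hq j, Finset.prod_const,
    Finset.card_range, Polynomial.coe_pow]

lemma red_coe (P : ℤ[X]) : red l (P : PowerSeries ℤ)
    = ((P.map (Int.castRingHom (ZMod l)) : (ZMod l)[X]) : PowerSeries (ZMod l)) := by
  ext n
  simp [red]

lemma LD_facs (D : ℕ) : LD (∏ j ∈ Finset.range (D + 1), fac ((q : ℤ) ^ j) 1)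
    (∑ j ∈ Finset.range (D + 1), cs ((q : ℤ) ^ j) 1) :=
  LD_prod _ _ _ fun j _ => LD_fac _ one_pos

lemma coeff_facs (D : ℕ) {n : ℕ} (hn : 0 < n) :
    PowerSeries.coeff n (∑ j ∈ Finset.range (D + 1), cs ((q : ℤ) ^ j) 1)
      = -∑ j ∈ Finset.range (D + 1), ((q : ℤ) ^ n) ^ j := by
  rw [map_sum, ← Finset.sum_neg_distrib]
  apply Finset.sum_congr rfl
  intro j _
  unfold cs
  rw [PowerSeries.coeff_mk, if_pos ⟨hn.ne', one_dvd n⟩, Nat.div_one]
  push_cast
  ring

lemma coeff0_facs (D : ℕ) :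
    PowerSeries.coeff 0 (∑ j ∈ Finset.range (D + 1), cs ((q : ℤ) ^ j) 1) = 0 := by
  rw [map_sum]
  exact Finset.sum_eq_zero fun j _ => cs_zero _ _

variable {Y : Type*} {Φ : Y → Y} (hfin : ∀ n : ℕ, 0 < n → {z | IsPeriodicPt Φ n z}.Finite)
  {s : Y → Prop} (hs : ∀ z, s z → s (Φ z)) {D : ℕ} {pts : ℕ → ℕ} {P : ℤ[X]}
  (hP : LogCoeffs P (cP q D pts)) (hpts : ∀ n, 0 < n → pts n = cnt Φ s n)

include hfin hs hP hpts

lemma rel_even (hD : Even D) :
    (P : PowerSeries ℤ) * ∏ j ∈ Finset.range (D + 1), fac ((q : ℤ) ^ j) 1 = zi Φ s := by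
  apply zi_unique hfin hs (LD_mul hP.toLD (LD_facs D))
  · rw [map_add, coeff_zero_ser, coeff0_facs, add_zero]
  · apply coeff_zero_mul'
    · rw [Polynomial.coeff_coe, hP.1]
    · exact coeff_zero_prod' _ _ fun j _ => coeff_zero_fac _ one_pos
  · intro n hn
    rw [map_add, coeff_ser hn, coeff_facs D hn]
    unfold cP
    rw [hD.neg_one_pow, hpts n hn]
    ring

lemma rel_odd (hD : Odd D) :
    (P : PowerSeries ℤ) * zi Φ s = ∏ j ∈ Finset.range (D + 1), fac ((q : ℤ) ^ j) 1 := by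
  apply LD_ext (LD_mul hP.toLD (LD_zi hfin hs)) (LD_facs D)
  · rw [map_add, coeff_zero_ser, coeff_zero_lz, add_zero]
  · exact coeff0_facs D
  · apply coeff_zero_mul'
    · rw [Polynomial.coeff_coe, hP.1]
    · exact coeff_zero_zi s
  · exact coeff_zero_prod' _ _ fun j _ => coeff_zero_fac _ one_pos
  · intro n hn
    rw [map_add, coeff_ser hn, coeff_facs D hn, coeff_lz s hn]
    unfold cP
    rw [hD.neg_one_pow, hpts n hn]
    ring

/-- the order at `T = 1` of the inverse zeta function modulo `ℓ` -/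
theorem Od_of_prim (hq : (q : ZMod l) = 1) (hv : ¬ (l : ℤ) ∣ P.eval 1) :
    Od (red l (zi Φ s)) (D + 1) := by
  have hv' : (P.map (Int.castRingHom (ZMod l))).eval 1 ≠ 0 := by
    intro h
    apply hv
    rw [← ZMod.intCast_zmod_eq_zero_iff_dvd, ← eq_intCast (Int.castRingHom (ZMod l)),
      ← Polynomial.eval₂_at_apply, map_one, ← eval_map]
    exact h
  rcases Nat.even_or_odd D with hD | hD
  · rw [← rel_even hfin hs hP hpts hD, map_mul, red_facs hq, red_coe, ← Polynomial.coe_mul]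
    exact Od_poly hv' _
  · apply Od_inv hv'
    rw [← red_coe, ← map_mul, rel_odd hfin hs hP hpts hD, red_facs hq]

theorem prim_of_Od (hq : (q : ZMod l) = 1) (h : Od (red l (zi Φ s)) (D + 1)) :
    ¬ (l : ℤ) ∣ P.eval 1 := by
  intro hv
  have hv' : (P.map (Int.castRingHom (ZMod l))).eval 1 = 0 := by
    rw [← ZMod.intCast_zmod_eq_zero_iff_dvd, ← eq_intCast (Int.castRingHom (ZMod l)),
      ← Polynomial.eval₂_at_apply, map_one, ← eval_map] at hv
    exact hv
  rcases Nat.even_or_odd D with hD | hD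
  · rw [← rel_even hfin hs hP hpts hD, map_mul, red_facs hq, red_coe, ← Polynomial.coe_mul] at h
    exact eval_ne_of_Od h hv'
  · refine eval_ne_of_Od' h ?_ hv'
    rw [← red_coe, ← map_mul, rel_odd hfin hs hP hpts hD, red_facs hq]

end prim

end Pool.Agent.T9h63.KT
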