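import Pool.Agent.T9h63.KT.Fin2

set_option autoImplicit false
set_option maxHeartbeats 1000000

/-!
Products of the roots of two integral polynomials which are products of a power of `q` and of a root of
unity of `ℓ`-power order.
-/

namespace Pool.Agent.T9h63.KT

open Polynomial

section prode

variable {l : ℕ} [hl : Fact l.Prime] {q : ℕ}

/-- a root of `R` gives a root of the reduction -/
lemma red_root {R : ℤ[X]} {z : ℂ} (hz0 : z ≠ 0)
    (hz : (R.map (Int.castRingHom ℂ)).eval z = 0) :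
    eval₂ (Int.castRingHom ℂ) z⁻¹ R.reverse = 0 := by
  letI := invertibleOfNonzero hz0
  have h1 : eval₂ (Int.castRingHom ℂ) z R = 0 := by rwa [← eval_map]
  have h2 := (eval₂_reverse_eq_zero_iff (Int.castRingHom ℂ) z R).2 h1
  rwa [invOf_eq_inv] at h2

lemma root_ne {R : ℤ[X]} (hR0 : R.coeff 0 = 1) {z : ℂ}
    (hz : (R.map (Int.castRingHom ℂ)).eval z = 0) : z ≠ 0 := by
  rintro rfl
  rw [← coeff_zero_eq_eval_zero, coeff_map, hR0] at hz
  simp at hz

lemma monic_rev {R : ℤ[X]} (hR0 : R.coeff 0 = 1) : R.reverse.Monic := by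
  unfold Monic
  rw [reverse_leadingCoeff]
  unfold trailingCoeff
  have h1 : R.natTrailingDegree = 0 := by
    rw [natTrailingDegree_eq_zero]
    right; rw [hR0]; exact one_ne_zero
  rw [h1, hR0]

/-- a residue field of the ring of algebraic integers -/
lemma exists_residue (l : ℕ) [hl : Fact l.Prime] :
    ∃ (F : Type) (_ : Field F) (_ : CharP F l), Nonempty (integralClosure ℤ ℂ →+* F) := by
  have hp : (Ideal.span {(l : ℤ)}).IsMaximal :=
    PrincipalIdealRing.isMaximal_of_irreducible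
      (Nat.prime_iff_prime_int.1 hl.out).irreducible
  haveI := hp
  have hker : RingHom.ker (algebraMap ℤ (integralClosure ℤ ℂ)) ≤ Ideal.span {(l : ℤ)} := by
    have : Function.Injective (algebraMap ℤ (integralClosure ℤ ℂ)) :=
      FaithfulSMul.algebraMap_injective ℤ (integralClosure ℤ ℂ)
    rw [(RingHom.injective_iff_ker_eq_bot _).1 this]
    exact bot_le
  haveI : Algebra.IsIntegral ℤ (integralClosure ℤ ℂ) := integralClosure.AlgebraIsIntegral
  obtain ⟨m, hm, hml⟩ := Ideal.exists_ideal_over_maximal_of_isIntegral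
    (S := (integralClosure ℤ ℂ)) (Ideal.span {(l : ℤ)}) hker
  haveI := hm
  letI fF : Field (integralClosure ℤ ℂ ⧸ m) := Ideal.Quotient.field m
  refine ⟨integralClosure ℤ ℂ ⧸ m, fF, ?_, ⟨Ideal.Quotient.mk m⟩⟩
  have hl0 : ((l : ℕ) : integralClosure ℤ ℂ ⧸ m) = 0 := by
    have h1 : (algebraMap ℤ (integralClosure ℤ ℂ) (l : ℤ)) ∈ m := by
      rw [← Ideal.mem_comap, hml]
      exact Ideal.mem_span_singleton_self _
    have h2 : Ideal.Quotient.mk m (algebraMap ℤ (integralClosure ℤ ℂ) (l : ℤ)) = 0 :=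
      Ideal.Quotient.eq_zero_iff_mem.2 h1
    simpa using h2
  haveI : CharP (integralClosure ℤ ℂ ⧸ m) (ringChar (integralClosure ℤ ℂ ⧸ m)) :=
    ringChar.charP _
  have h1 : ringChar (integralClosure ℤ ℂ ⧸ m) ∣ l := (ringChar.spec _ l).1 hl0
  rcases (Nat.dvd_prime hl.out).1 h1 with h | h
  · exact absurd h (CharP.ringChar_ne_one)
  · rw [← h]; exact ringChar.charP _

theorem prod_eigen (hq : (q : ZMod l) = 1) {ι : Type*} (S : Finset ι) (P : ι → ℤ[X]) (e : ι → ℕ)
    {R Q : ℤ[X]} (hR0 : R.coeff 0 = 1) (hQ0 : Q.coeff 0 = 1)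
    (hcong : R.map (Int.castRingHom (ZMod l))
      = ∏ J ∈ S, (P J).map (Int.castRingHom (ZMod l)) ^ e J)
    (hcop : ∀ J ∈ S, IsCoprime ((P J).map (Int.castRingHom (ZMod l)))
      (Q.map (Int.castRingHom (ZMod l))).reverse) {z w : ℂ}
    (hz : (R.map (Int.castRingHom ℂ)).eval z = 0) (hw : (Q.map (Int.castRingHom ℂ)).eval w = 0)
    (b j : ℕ) : (z * w * (q : ℂ) ^ j) ^ l ^ b ≠ 1 := by
  intro hzw
  have hz0 := root_ne hR0 hz
  have hw0 := root_ne hQ0 hw
  have hα := red_root hz0 hz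
  have hβ := red_root hw0 hw
  set L := l ^ b with hL
  have hprod : (z⁻¹ * w⁻¹) ^ L = (q : ℂ) ^ (j * L) := by
    rw [mul_pow, ← pow_mul] at hzw
    rw [← mul_inv, inv_pow]
    exact (eq_inv_of_mul_eq_one_right hzw).symm
  have hαi : IsIntegral ℤ z⁻¹ := ⟨R.reverse, monic_rev hR0, hα⟩
  have hβi : IsIntegral ℤ w⁻¹ := ⟨Q.reverse, monic_rev hQ0, hβ⟩
  let O := integralClosure ℤ ℂ
  let α : O := ⟨z⁻¹, hαi⟩
  let β : O := ⟨w⁻¹, hβi⟩
  obtain ⟨F, _, _, ⟨ψ⟩⟩ := exists_residue l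
  let φ : ZMod l →+* F := ZMod.castHom dvd_rfl F
  have hφ : φ.comp (Int.castRingHom (ZMod l)) = Int.castRingHom F := RingHom.ext_int _ _
  have hψ : ψ.comp (algebraMap ℤ O) = Int.castRingHom F := RingHom.ext_int _ _
  -- the reductions
  have hev : ∀ (G : ℤ[X]) (u : O), eval₂ (Int.castRingHom ℂ) (u : ℂ) G = 0 →
      eval₂ (Int.castRingHom F) (ψ u) G = 0 := by
    intro G u h
    have h1 : eval₂ (algebraMap ℤ O) u G = 0 := by
      have h2 : ((eval₂ (algebraMap ℤ O) u G : O) : ℂ) = eval₂ (Int.castRingHom ℂ) (u : ℂ) G := by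
        have h3 := hom_eval₂ G (algebraMap ℤ O) (algebraMap O ℂ) u
        have h4 : (algebraMap O ℂ).comp (algebraMap ℤ O) = Int.castRingHom ℂ :=
          RingHom.ext_int _ _
        rw [h4] at h3
        exact h3
      apply Subtype.ext
      rw [h2, h]
      rfl
    have h5 := hom_eval₂ G (algebraMap ℤ O) ψ u
    rw [h1, map_zero, hψ] at h5
    exact h5.symm
  have hαF := hev R.reverse α hα
  have hβF := hev Q.reverse β hβ
  have hqF : ((q : ℕ) : F) = 1 := by
    have := congrArg φ hq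
    rw [map_natCast, map_one] at this
    exact this
  have h1 : (ψ α * ψ β) ^ L = 1 := by
    have h2 : (α * β) ^ L = (algebraMap ℤ O (q : ℤ)) ^ (j * L) := by
      apply Subtype.ext
      have : (((α * β) ^ L : O) : ℂ) = (z⁻¹ * w⁻¹) ^ L := rfl
      rw [this, hprod]
      simp
    have h3 := congrArg ψ h2
    rw [map_pow, map_mul, map_pow] at h3
    rw [h3]
    have h4 : ψ (algebraMap ℤ O (q : ℤ)) = 1 := by
      have : ψ (algebraMap ℤ O (q : ℤ)) = (ψ.comp (algebraMap ℤ O)) (q : ℤ) := rfl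
      rw [this, hψ]
      simpa using hqF
    rw [h4, one_pow]
  have h2 : ψ α * ψ β = 1 := by
    have h3 : (ψ α * ψ β - 1) ^ L = 0 := by
      rw [hL, sub_pow_char_pow, one_pow, ← hL, h1, sub_self]
    exact sub_eq_zero.1 (eq_zero_of_pow_eq_zero h3)
  have hα0 : ψ α ≠ 0 := left_ne_zero_of_mul_eq_one h2
  have hβ0 : ψ β ≠ 0 := right_ne_zero_of_mul_eq_one h2
  have hinv : (ψ α)⁻¹ = ψ β := inv_eq_of_mul_eq_one_right h2
  -- root of `R`
  have h3 : eval₂ (Int.castRingHom F) (ψ β) R = 0 := by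
    letI := invertibleOfNonzero hβ0
    apply (eval₂_reverse_eq_zero_iff (Int.castRingHom F) (ψ β) R).1
    rw [invOf_eq_inv, ← hinv, inv_inv]
    exact hαF
  have h4 : eval₂ (Int.castRingHom F) (ψ α) Q = 0 := by
    letI := invertibleOfNonzero hα0
    apply (eval₂_reverse_eq_zero_iff (Int.castRingHom F) (ψ α) Q).1
    rw [invOf_eq_inv, hinv]
    exact hβF
  have h5 : eval₂ φ (ψ β) (R.map (Int.castRingHom (ZMod l))) = 0 := by
    rw [eval₂_map, hφ]; exact h3
  have h6 : eval₂ φ (ψ β) (Q.map (Int.castRingHom (ZMod l))).reverse = 0 := by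
    letI := invertibleOfNonzero hα0
    have h7 := (eval₂_reverse_eq_zero_iff φ (ψ α) (Q.map (Int.castRingHom (ZMod l)))).2
      (by rw [eval₂_map, hφ]; exact h4)
    rwa [invOf_eq_inv, hinv] at h7
  rw [hcong, eval₂_finset_prod] at h5
  rw [Finset.prod_eq_zero_iff] at h5
  obtain ⟨J, hJ, h7⟩ := h5
  rw [eval₂_pow] at h7
  have h8 := eq_zero_of_pow_eq_zero h7
  obtain ⟨A, B, hAB⟩ := hcop J hJ
  have h9 := congrArg (eval₂ φ (ψ β)) hAB
  rw [eval₂_add, eval₂_mul, eval₂_mul, h8, h6, mul_zero, mul_zero, add_zero, eval₂_one] at h9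
  exact zero_ne_one h9

end prode

end Pool.Agent.T9h63.KT
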