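import Pool.Agent.W555.TC.ModL
import Pool.Agent.W555.TC.Cnt

set_option autoImplicit false
set_option maxHeartbeats 1000000

/-!
The inverse zeta function of a set with a map all of whose iterates have finitely many fixed points.
-/

namespace Pool.Agent.T9h63.KT

open Function PowerSeries Pool.Agent.W555.TC

section zi

variable {Y : Type*} (Φ : Y → Y)

/-- the number of fixed points of `Φ ^ n` with the property `s` -/
noncomputable def cnt (s : Y → Prop) (n : ℕ) : ℕ := {z | IsPeriodicPt Φ n z ∧ s z}.ncard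

open Classical in
/-- number of orbits of length `d` with the property `s` -/
noncomputable def ob (s : Y → Prop) (d : ℕ) : ℕ := orb Φ s d

/-- `∏ (1 - T ^ d) ^ (ob d)`, over `d ≤ K` -/
noncomputable def part (s : Y → Prop) (K : ℕ) : ℤ⟦X⟧ :=
  ∏ d ∈ Finset.Icc 1 K, fac 1 d ^ ob Φ s d

/-- the inverse of the zeta function -/
noncomputable def zi (s : Y → Prop) : ℤ⟦X⟧ := PowerSeries.mk fun n => coeff n (part Φ s n)

/-- the series with coefficients `-cnt n` -/
noncomputable def lz (s : Y → Prop) : ℤ⟦X⟧ :=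
  PowerSeries.mk fun n => if n = 0 then 0 else -(cnt Φ s n : ℤ)

variable {Φ}

lemma coeff_lz (s : Y → Prop) {n : ℕ} (hn : 0 < n) : coeff n (lz Φ s) = -(cnt Φ s n : ℤ) := by
  simp [lz, hn.ne']

lemma coeff_zero_lz (s : Y → Prop) : coeff 0 (lz Φ s) = 0 := by simp [lz]

lemma coeff_zero_part (s : Y → Prop) (K : ℕ) : coeff 0 (part Φ s K) = 1 := by
  unfold part
  apply coeff_zero_prod'
  intro d hd
  exact coeff_zero_pow' (coeff_zero_fac _ (Finset.mem_Icc.mp hd).1) _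

lemma LD_part (s : Y → Prop) (K : ℕ) : LD (part Φ s K)
    (∑ d ∈ Finset.Icc 1 K, ((ob Φ s d : ℕ) : ℤ⟦X⟧) * cs 1 d) := by
  unfold part
  apply LD_prod
  intro d hd
  exact LD_pow (LD_fac 1 (Finset.mem_Icc.mp hd).1) _

variable (hfin : ∀ n : ℕ, 0 < n → {z | IsPeriodicPt Φ n z}.Finite)

include hfin

lemma cnt_eq {s : Y → Prop} (hs : ∀ z, s z → s (Φ z)) {n : ℕ} (hn : 0 < n) :
    cnt Φ s n = ∑ d ∈ n.divisors, d * ob Φ s d := by
  classical
  unfold cnt
  have := ncard_sum Φ hfin (fun _ z => s z) hn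
  rw [this]
  apply Finset.sum_congr rfl
  intro d hd
  rw [ncard_eq Φ s hfin hs (Nat.pos_of_mem_divisors hd)]
  unfold ob
  congr!

lemma coeff_log_part {s : Y → Prop} (hs : ∀ z, s z → s (Φ z)) {n K : ℕ} (hn : 0 < n)
    (hK : n ≤ K) : coeff n (∑ d ∈ Finset.Icc 1 K, ((ob Φ s d : ℕ) : ℤ⟦X⟧) * cs 1 d)
      = -(cnt Φ s n : ℤ) := by
  rw [cnt_eq hfin hs hn, map_sum]
  have hsub : n.divisors ⊆ Finset.Icc 1 K := by
    intro d hd
    rw [Finset.mem_Icc]
    exact ⟨Nat.pos_of_mem_divisors hd, (Nat.divisor_le hd).trans hK⟩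
  push_cast
  rw [← Finset.sum_neg_distrib, ← Finset.sum_subset hsub]
  · apply Finset.sum_congr rfl
    intro d hd
    rw [coeff_natCast_mul, coeff_cs_one hn, if_pos (Nat.dvd_of_mem_divisors hd)]
    ring
  · intro d _ hd
    have hdn : ¬ (d ∣ n) := fun h => hd (Nat.mem_divisors.mpr ⟨h, hn.ne'⟩)
    rw [coeff_natCast_mul, coeff_cs_one hn, if_neg hdn, mul_zero]

omit hfin in
lemma coeff_zero_log_part (s : Y → Prop) (K : ℕ) :
    coeff 0 (∑ d ∈ Finset.Icc 1 K, ((ob Φ s d : ℕ) : ℤ⟦X⟧) * cs 1 d) = 0 := by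
  rw [map_sum]
  apply Finset.sum_eq_zero
  intro d _
  rw [coeff_natCast_mul, cs_zero, mul_zero]

lemma coeff_part {s : Y → Prop} (hs : ∀ z, s z → s (Φ z)) {n K : ℕ} (hK : n ≤ K) :
    coeff n (part Φ s K) = coeff n (zi Φ s) := by
  simp only [zi, coeff_mk]
  apply LD_unique (LD_part s K) (LD_part s n) (coeff_zero_log_part s K) (coeff_zero_log_part s n)
    (coeff_zero_part s K) (coeff_zero_part s n) n _ n le_rfl
  intro m hm
  rcases Nat.eq_zero_or_pos m with rfl | hm0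
  · rw [coeff_zero_log_part, coeff_zero_log_part]
  · rw [coeff_log_part hfin hs hm0 (hm.trans hK), coeff_log_part hfin hs hm0 hm]

omit hfin in
lemma coeff_zero_zi (s : Y → Prop) : coeff 0 (zi Φ s) = 1 := by
  simp only [zi, coeff_mk]
  exact coeff_zero_part s 0

lemma LD_zi {s : Y → Prop} (hs : ∀ z, s z → s (Φ z)) : LD (zi Φ s) (lz Φ s) := by
  unfold LD
  ext n
  have h := congrArg (coeff n) (LD_part (Φ := Φ) s n)
  simp only [eul, coeff_mk, coeff_mul] at h ⊢
  rw [← coeff_part hfin hs (le_refl n), h]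
  apply Finset.sum_congr rfl
  intro p hp
  have hpn : p.1 + p.2 = n := Finset.HasAntidiagonal.mem_antidiagonal.mp hp
  rw [coeff_part hfin hs (show p.2 ≤ n by omega)]
  rcases Nat.eq_zero_or_pos p.1 with h0 | h0
  · rw [h0, coeff_zero_log_part, coeff_zero_lz]
  · rw [coeff_log_part hfin hs h0 (by omega), coeff_lz s h0]

/-- the inverse zeta function is determined by the numbers of fixed points -/
lemma zi_unique {s : Y → Prop} (hs : ∀ z, s z → s (Φ z)) {f c : ℤ⟦X⟧} (hf : LD f c)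
    (hc0 : coeff 0 c = 0) (hf0 : coeff 0 f = 1)
    (hc : ∀ n : ℕ, 0 < n → coeff n c = -(cnt Φ s n : ℤ)) : f = zi Φ s := by
  apply LD_ext hf (LD_zi hfin hs) hc0 (coeff_zero_lz s) hf0 (coeff_zero_zi s)
  intro n hn
  rw [hc n hn, coeff_lz s hn]

/-- finite disjoint unions -/
lemma zi_prod {ι : Type*} (S : Finset ι) (s : ι → Y → Prop) (hs : ∀ i ∈ S, ∀ z, s i z → s i (Φ z))
    {t : Y → Prop} (ht : ∀ z, t z → t (Φ z))
    (hc : ∀ n : ℕ, 0 < n → cnt Φ t n = ∑ i ∈ S, cnt Φ (s i) n) :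
    zi Φ t = ∏ i ∈ S, zi Φ (s i) := by
  symm
  apply zi_unique hfin ht (LD_prod S _ _ fun i hi => LD_zi hfin (hs i hi))
  · rw [map_sum]
    exact Finset.sum_eq_zero fun i _ => coeff_zero_lz _
  · exact coeff_zero_prod' _ _ fun i _ => coeff_zero_zi _
  · intro n hn
    rw [map_sum, hc n hn]
    push_cast
    rw [← Finset.sum_neg_distrib]
    exact Finset.sum_congr rfl fun i _ => coeff_lz _ hn

lemma cnt_union {ι : Type*} (S : Finset ι) (s : ι → Y → Prop) {t : Y → Prop}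
    (hd : ∀ i ∈ S, ∀ j ∈ S, i ≠ j → ∀ z, s i z → ¬ s j z)
    (hts : ∀ z, t z ↔ ∃ i ∈ S, s i z) {n : ℕ} (hn : 0 < n) :
    cnt Φ t n = ∑ i ∈ S, cnt Φ (s i) n := by
  classical
  unfold cnt
  have e : {z | IsPeriodicPt Φ n z ∧ t z} = ⋃ i ∈ S, {z | IsPeriodicPt Φ n z ∧ s i z} := by
    ext z
    simp only [Set.mem_setOf_eq, Set.mem_iUnion, hts]
    constructor
    · rintro ⟨h1, i, hi, h2⟩
      exact ⟨i, hi, h1, h2⟩
    · rintro ⟨i, hi, h1, h2⟩
      exact ⟨h1, i, hi, h2⟩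
  rw [e]
  clear e hts
  induction S using Finset.induction_on with
  | empty => simp
  | insert a S ha ih =>
    have hF : ∀ i, {z | IsPeriodicPt Φ n z ∧ s i z}.Finite := fun i =>
      (hfin n hn).subset fun z hz => hz.1
    have hF2 : (⋃ i ∈ S, {z | IsPeriodicPt Φ n z ∧ s i z}).Finite :=
      Set.Finite.biUnion S.finite_toSet fun i _ => hF i
    rw [Finset.sum_insert ha, Finset.set_biUnion_insert, Set.ncard_union_eq _ (hF a) hF2]
    · congr 1
      exact ih fun i hi j hj => hd i (Finset.mem_insert_of_mem hi) j (Finset.mem_insert_of_mem hj)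
    · rw [Set.disjoint_left]
      rintro z ⟨_, h1⟩ h2
      simp only [Set.mem_iUnion] at h2
      obtain ⟨i, hi, _, h2⟩ := h2
      exact hd a (Finset.mem_insert_self a S) i (Finset.mem_insert_of_mem hi)
        (fun h => ha (h ▸ hi)) z h1 h2

/-- finite disjoint unions -/
lemma zi_union {ι : Type*} (S : Finset ι) (s : ι → Y → Prop) {t : Y → Prop}
    (hs : ∀ i ∈ S, ∀ z, s i z → s i (Φ z))
    (hd : ∀ i ∈ S, ∀ j ∈ S, i ≠ j → ∀ z, s i z → ¬ s j z)
    (hts : ∀ z, t z ↔ ∃ i ∈ S, s i z) : zi Φ t = ∏ i ∈ S, zi Φ (s i) := by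
  apply zi_prod hfin S s hs
  · intro z hz
    obtain ⟨i, hi, h⟩ := (hts z).1 hz
    exact (hts _).2 ⟨i, hi, hs i hi z h⟩
  · intro n hn
    exact cnt_union hfin S s hd hts hn

end zi

end Pool.Agent.T9h63.KT
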